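import Mathlib
import Pool.Agent.PC.Sieve

set_option autoImplicit false

namespace Pool.Agent.Helper20.TwinIndex

open Finset

/-- `pr j` is the `j`-th prime, `pr 1 = 2` (the value at `0` is not used). -/
noncomputable def pr (j : ℕ) : ℕ := Nat.nth Nat.Prime (j - 1)

/-- `Dec n k m`: `n = k + m` is a decomposition as in the question, that is `k, m ≥ 1` and
`p_k + 2` and `p_{p_m} + 2` are prime. -/
def Dec (n k m : ℕ) : Prop :=
  0 < k ∧ 0 < m ∧ k + m = n ∧ (pr k + 2).Prime ∧ (pr (pr m) + 2).Prime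

/-- The number of `p ≤ x` with `p` and `p + 2` prime. -/
def twinCount (x : ℕ) : ℕ := ((Icc 1 x).filter (fun p => p.Prime ∧ (p + 2).Prime)).card

/-- The number of `p ≤ x` with `p`, `p + 2` and `π(p)` prime. -/
def superCount (x : ℕ) : ℕ :=
  ((Icc 1 x).filter (fun p => p.Prime ∧ (p + 2).Prime ∧ (Nat.primeCounting p).Prime)).card

open Classical in
/-- The number of `m ≤ M` (with `m ≥ 1`) such that `p_{p_m} + 2` is prime. -/
noncomputable def indexCount (M : ℕ) : ℕ :=
  ((Icc 1 M).filter (fun m => (pr (pr m) + 2).Prime)).card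

open Classical in
/-- The number of `n ≤ N` having a decomposition `n = k + m` with `m ≤ M`. -/
noncomputable def repCount (N M : ℕ) : ℕ :=
  ((Icc 1 N).filter (fun n => ∃ k m, m ≤ M ∧ Dec n k m)).card

theorem pr_prime (j : ℕ) : (pr j).Prime := Nat.prime_nth_prime _

theorem pr_strictMono {i j : ℕ} (hi : 1 ≤ i) (hij : i < j) : pr i < pr j :=
  Nat.nth_strictMono Nat.infinite_setOfPred_prime (by omega)

theorem pr_mono {i j : ℕ} (hij : i ≤ j) : pr i ≤ pr j :=
  (Nat.nth_strictMono Nat.infinite_setOfPred_prime).monotone (by omega)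

theorem pi_pr {j : ℕ} (hj : 1 ≤ j) : Nat.primeCounting (pr j) = j := by
  rw [Nat.primeCounting_eq_primeCounting'_succ]
  show Nat.primeCounting' (pr j + 1) = j
  unfold pr Nat.primeCounting'
  rw [Nat.count_succ, if_pos (Nat.prime_nth_prime _), Nat.count_nth_of_infinite
    Nat.infinite_setOfPred_prime]
  omega

theorem lt_pr {j : ℕ} (hj : 1 ≤ j) : j < pr j := by
  have := Nat.add_two_le_nth_prime (j - 1)
  unfold pr
  omega

/-- `p_j ≤ x` as soon as `j ≤ π(x)`. -/
theorem pr_le_of_le_pi {j x : ℕ} (hj : 1 ≤ j) (h : j ≤ Nat.primeCounting x) : pr j ≤ x := by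
  by_contra hx
  push Not at hx
  have h1 : Nat.primeCounting x ≤ Nat.primeCounting (pr j - 1) :=
    Nat.monotone_primeCounting (by omega)
  rw [Nat.primeCounting_sub_one] at h1
  unfold pr at h1
  rw [Nat.primeCounting'_nth_eq] at h1
  omega

/-- Chebyshev: `q ≤ 10 π(q) log q` for `q ≥ 2`. -/
theorem cheb {q : ℕ} (hq : 2 ≤ q) : (q : ℝ) ≤ 10 * Nat.primeCounting q * Real.log q := by
  have hq2 : (2 : ℝ) ≤ q := by exact_mod_cast hq
  have hlog : 0 < Real.log q := Real.log_pos (by linarith)
  have h := Chebyshev.pi_ge q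
  rw [div_le_iff₀ hlog] at h
  have h4 : Real.log ((q : ℝ) + 1) ≤ 2 * Real.log 2 + ((q : ℝ) - 3) / 4 := by
    have h1 : Real.log (((q : ℝ) + 1) / 4) ≤ ((q : ℝ) + 1) / 4 - 1 :=
      Real.log_le_sub_one_of_pos (by positivity)
    rw [Real.log_div (by positivity) (by norm_num), show (4 : ℝ) = 2 ^ 2 by norm_num,
      Real.log_pow] at h1
    push_cast at h1
    linarith
  have hl2 := Real.log_two_gt_d9
  nlinarith

/-- Brun's bound for the number of twin primes (from the sieve). -/
theorem brun : ∃ C : ℝ, 0 < C ∧ ∀ x : ℕ, 2 ≤ x →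
    (twinCount x : ℝ) ≤ C * x / Real.log x ^ 2 := by
  obtain ⟨C, hC, h⟩ := Pool.Agent.PC.pair_sieve
  refine ⟨2 * C, by positivity, fun x hx => ?_⟩
  have h1 := h 0 x 2 hx (by norm_num)
  rw [zero_add] at h1
  have h2 : ((Ioc 0 x).filter (fun n => n.Prime ∧ (n + 2).Prime)) =
      ((Icc 1 x).filter (fun p => p.Prime ∧ (p + 2).Prime)) := by
    congr 1
  rw [h2] at h1
  unfold twinCount
  refine h1.trans (le_of_eq ?_)
  rw [Nat.totient_two]
  push_cast
  ring

open Classical in
/-- The number of `k ≤ N` with `p_k + 2` prime. -/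
noncomputable def aCount (N : ℕ) : ℕ := ((Icc 1 N).filter (fun k => (pr k + 2).Prime)).card

theorem pr_injOn : Set.InjOn pr {j | 1 ≤ j} := by
  intro i hi j hj h
  rcases lt_trichotomy i j with h1 | h1 | h1
  · exact absurd h (pr_strictMono hi h1).ne
  · exact h1
  · exact absurd h.symm (pr_strictMono hj h1).ne

theorem aCount_le {N x : ℕ} (hx : N ≤ Nat.primeCounting x) : aCount N ≤ twinCount x := by
  classical
  unfold aCount twinCount
  apply Finset.card_le_card_of_injOn pr
  · intro k hk
    simp only [coe_filter, mem_Icc, Set.mem_ofPred_eq] at hk ⊢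
    obtain ⟨⟨h1, h2⟩, h3⟩ := hk
    exact ⟨⟨(pr_prime k).one_le, pr_le_of_le_pi h1 (h2.trans hx)⟩, pr_prime k, h3⟩
  · intro i hi j hj h
    simp only [coe_filter, mem_Icc, Set.mem_ofPred_eq] at hi hj
    exact pr_injOn hi.1.1 hj.1.1 h

theorem indexCount_le {N x : ℕ} (hx : N ≤ Nat.primeCounting (Nat.primeCounting x)) :
    indexCount N ≤ superCount x := by
  classical
  unfold indexCount superCount
  apply Finset.card_le_card_of_injOn (fun m => pr (pr m))
  · intro m hm
    simp only [coe_filter, mem_Icc, Set.mem_ofPred_eq] at hm ⊢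
    obtain ⟨⟨h1, h2⟩, h3⟩ := hm
    refine ⟨⟨(pr_prime _).one_le, ?_⟩, pr_prime _, h3, ?_⟩
    · exact pr_le_of_le_pi (pr_prime m).one_le (pr_le_of_le_pi h1 (h2.trans hx))
    · rw [pi_pr (pr_prime m).one_le]
      exact pr_prime m
  · intro i hi j hj h
    simp only [coe_filter, mem_Icc, Set.mem_ofPred_eq] at hi hj
    exact pr_injOn hi.1.1 hj.1.1 (pr_injOn (pr_prime i).one_le (pr_prime j).one_le h)

theorem superCount_le (x : ℕ) : superCount x ≤ twinCount x := by
  unfold superCount twinCount
  apply Finset.card_le_card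
  intro p hp
  simp only [mem_filter] at hp ⊢
  exact ⟨hp.1, hp.2.1, hp.2.2.1⟩

theorem indexCount_le_self (M : ℕ) : indexCount M ≤ M := by
  classical
  unfold indexCount
  refine (Finset.card_filter_le _ _).trans ?_
  simp

/-- The counting inequality. -/
theorem repCount_le (N M : ℕ) : repCount N M ≤ aCount N * indexCount M := by
  classical
  unfold repCount aCount indexCount
  rw [← Finset.card_product]
  refine (Finset.card_le_card ?_).trans (Finset.card_image_le (f := fun t : ℕ × ℕ => t.1 + t.2))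
  intro n hn
  simp only [mem_filter, mem_Icc] at hn
  obtain ⟨⟨h1, h2⟩, k, m, hm, hk0, hm0, hkm, hk, hpm⟩ := hn
  simp only [mem_image, mem_product, mem_filter, mem_Icc]
  exact ⟨(k, m), ⟨⟨⟨hk0, by omega⟩, hk⟩, ⟨⟨hm0, hm⟩, hpm⟩⟩, hkm⟩

theorem aCount_bound : ∃ C : ℝ, 0 < C ∧ ∀ N : ℕ, 2 ≤ N →
    (aCount N : ℝ) ≤ C * (N / Real.log N) := by
  obtain ⟨C, hC, h⟩ := brun
  refine ⟨10 * C, by positivity, fun N hN => ?_⟩
  have h1 : aCount N ≤ twinCount (pr N) := aCount_le (pi_pr (by omega)).ge
  have hlt : N < pr N := lt_pr (by omega)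
  have h2 := h (pr N) (by omega)
  have h3 := cheb (q := pr N) (by omega)
  rw [pi_pr (by omega)] at h3
  have hN2 : (2 : ℝ) ≤ N := by exact_mod_cast hN
  have hltR : (N : ℝ) < pr N := by exact_mod_cast hlt
  have hlogN : 0 < Real.log N := Real.log_pos (by linarith)
  have hlog : Real.log N ≤ Real.log (pr N) := Real.log_le_log (by linarith) hltR.le
  have hlogp : 0 < Real.log (pr N) := by linarith
  calc (aCount N : ℝ) ≤ twinCount (pr N) := by exact_mod_cast h1
    _ ≤ C * (pr N) / Real.log (pr N) ^ 2 := h2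
    _ ≤ C * (10 * N * Real.log (pr N)) / Real.log (pr N) ^ 2 := by gcongr
    _ = 10 * C * (N / Real.log (pr N)) := by field_simp
    _ ≤ 10 * C * (N / Real.log N) := by gcongr

open Classical in
/-- Almost all `n` have no decomposition with `m ≤ f(n)`, if `f(n) = o(log n)`. -/
theorem density (f : ℕ → ℕ)
    (hf : Filter.Tendsto (fun n : ℕ => (f n : ℝ) / Real.log n) Filter.atTop (nhds 0)) :
    Filter.Tendsto (fun N : ℕ =>
      (((Icc 1 N).filter (fun n => ∃ k m, m ≤ f n ∧ Dec n k m)).card : ℝ) / N)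
      Filter.atTop (nhds 0) := by
  obtain ⟨C, hC, hA⟩ := aCount_bound
  rw [Metric.tendsto_atTop] at hf ⊢
  intro ε hε
  obtain ⟨n₀, hn₀⟩ := hf (ε / (2 * C)) (by positivity)
  obtain ⟨N₁, hN₁⟩ := exists_nat_gt (2 * ((n₀ : ℝ) + 2) / ε)
  refine ⟨N₁ + n₀ + 3, fun N hN => ?_⟩
  have hN2 : 2 ≤ N := by omega
  have hNR : (2 : ℝ) ≤ N := by exact_mod_cast hN2
  have hlogN : 0 < Real.log N := Real.log_pos (by linarith)
  obtain ⟨M, hM⟩ : ∃ M : ℕ, M = ⌊ε / (2 * C) * Real.log N⌋₊ := ⟨_, rfl⟩
  have hMle : (M : ℝ) ≤ ε / (2 * C) * Real.log N := by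
    rw [hM]
    exact Nat.floor_le (by positivity)
  have hsub : ((Icc 1 N).filter (fun n => ∃ k m, m ≤ f n ∧ Dec n k m)) ⊆
      (Icc 1 (n₀ + 1)) ∪ ((Icc 1 N).filter (fun n => ∃ k m, m ≤ M ∧ Dec n k m)) := by
    intro n hn
    simp only [mem_filter, mem_Icc, mem_union] at hn ⊢
    obtain ⟨⟨h1, h2⟩, k, m, hm, hd⟩ := hn
    by_cases hnn : n ≤ n₀ + 1
    · exact Or.inl ⟨h1, hnn⟩
    · right
      refine ⟨⟨h1, h2⟩, k, m, ?_, hd⟩
      have h3 := hn₀ n (by omega)
      have hn2 : (1 : ℝ) < n := by exact_mod_cast (show 1 < n by omega)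
      have hlogn : 0 < Real.log n := Real.log_pos hn2
      rw [Real.dist_eq, sub_zero, abs_of_nonneg (by positivity), div_lt_iff₀ hlogn] at h3
      refine hm.trans ?_
      rw [hM]
      apply Nat.le_floor
      refine h3.le.trans ?_
      have : Real.log n ≤ Real.log N :=
        Real.log_le_log (by linarith) (by exact_mod_cast h2)
      gcongr
  have hcard : ((((Icc 1 N).filter (fun n => ∃ k m, m ≤ f n ∧ Dec n k m)).card : ℕ) : ℝ) ≤
      (n₀ + 1) + C * (N / Real.log N) * M := by
    have h1 := (Finset.card_le_card hsub).trans (Finset.card_union_le _ _)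
    rw [Nat.card_Icc, Nat.add_sub_cancel] at h1
    have h2 : ((Icc 1 N).filter (fun n => ∃ k m, m ≤ M ∧ Dec n k m)).card ≤
      aCount N * indexCount M := repCount_le N M
    have h3 : ((aCount N * indexCount M : ℕ) : ℝ) ≤ C * (N / Real.log N) * M := by
      push_cast
      have h4 := hA N hN2
      have h5 : (indexCount M : ℝ) ≤ M := by exact_mod_cast indexCount_le_self M
      gcongr
    have h6 : ((((Icc 1 N).filter (fun n => ∃ k m, m ≤ f n ∧ Dec n k m)).card : ℕ) : ℝ) ≤
        ((n₀ + 1 + aCount N * indexCount M : ℕ) : ℝ) := by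
      exact_mod_cast h1.trans (by omega)
    refine h6.trans ?_
    push_cast at h3 ⊢
    linarith
  rw [Real.dist_eq, sub_zero, abs_of_nonneg (by positivity), div_lt_iff₀ (by linarith)]
  refine hcard.trans_lt ?_
  have h7 : C * (N / Real.log N) * M ≤ ε / 2 * N := by
    calc C * (N / Real.log N) * M ≤ C * (N / Real.log N) * (ε / (2 * C) * Real.log N) := by gcongr
      _ = ε / 2 * N := by field_simp
  have h8 : (N₁ : ℝ) ≤ N := by exact_mod_cast (show N₁ ≤ N by omega)
  have h9 : 2 * ((n₀ : ℝ) + 2) < ε * N := by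
    rw [div_lt_iff₀ hε] at hN₁
    nlinarith
  linarith

/-- Infinitely many `n` are representable if and only if there are infinitely many twin primes. -/
theorem infinite_iff : {n : ℕ | ∃ k m, Dec n k m}.Infinite ↔
    {p : ℕ | p.Prime ∧ (p + 2).Prime}.Infinite := by
  constructor
  · intro h hfin
    apply h
    obtain ⟨X, hX⟩ := hfin.bddAbove
    refine (Set.finite_Iic (2 * X)).subset ?_
    rintro n ⟨k, m, hk0, hm0, hkm, hk, hm⟩
    have h1 : pr k ≤ X := hX ⟨pr_prime k, hk⟩
    have h2 : pr (pr m) ≤ X := hX ⟨pr_prime _, hm⟩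
    have h3 := lt_pr (j := k) hk0
    have h4 := lt_pr (j := m) hm0
    have h5 := lt_pr (j := pr m) (pr_prime m).one_le
    simp only [Set.mem_Iic]
    omega
  · intro h hfin
    apply h
    have hinj : Set.InjOn (fun p : ℕ => Nat.primeCounting p + 1)
        {p : ℕ | p.Prime ∧ (p + 2).Prime} := by
      intro p hp q hq hpq
      have h1 : Nat.primeCounting p = Nat.primeCounting q := by simpa using hpq
      have hp' : pr (Nat.primeCounting p) = p := by
        unfold pr
        rw [Nat.primeCounting_eq_primeCounting'_succ, Nat.primeCounting', Nat.count_succ,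
          if_pos hp.1, Nat.add_sub_cancel]
        exact Nat.nth_count hp.1
      have hq' : pr (Nat.primeCounting q) = q := by
        unfold pr
        rw [Nat.primeCounting_eq_primeCounting'_succ, Nat.primeCounting', Nat.count_succ,
          if_pos hq.1, Nat.add_sub_cancel]
        exact Nat.nth_count hq.1
      rw [← hp', ← hq', h1]
    refine Set.Finite.of_finite_image (hfin.subset ?_) hinj
    rintro _ ⟨p, hp, rfl⟩
    have hp' : pr (Nat.primeCounting p) = p := by
      unfold pr
      rw [Nat.primeCounting_eq_primeCounting'_succ, Nat.primeCounting', Nat.count_succ,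
        if_pos hp.1, Nat.add_sub_cancel]
      exact Nat.nth_count hp.1
    refine ⟨Nat.primeCounting p, 1, ?_, one_pos, rfl, ?_, ?_⟩
    · by_contra h0
      have h0' : Nat.primeCounting p = 0 := by omega
      rw [Nat.primeCounting_eq_zero_iff] at h0'
      exact absurd hp.1.two_le (by omega)
    · rw [hp']
      exact hp.2
    · have h1 : pr 1 = 2 := by
        unfold pr
        exact Nat.nth_prime_zero_eq_two
      have h2 : pr 2 = 3 := by
        unfold pr
        exact Nat.nth_prime_one_eq_three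
      rw [h1, h2]
      norm_num

theorem one_le_superCount {x : ℕ} (hx : 3 ≤ x) : 1 ≤ superCount x := by
  unfold superCount
  apply Finset.card_pos.2
  refine ⟨3, ?_⟩
  simp only [mem_filter, mem_Icc]
  refine ⟨⟨by norm_num, hx⟩, by norm_num, by norm_num, ?_⟩
  have h1 : pr 2 = 3 := by
    unfold pr
    exact Nat.nth_prime_one_eq_three
  have h2 := pi_pr (j := 2) (by norm_num)
  rw [h1] at h2
  rw [h2]
  exact Nat.prime_two

/-- `x ≤ 100 N log² x` and `√x ≤ 1600 N` for `N = π(π(x))`. -/
theorem growth {x : ℕ} (hx : 3 ≤ x) :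
    (x : ℝ) ≤ 100 * Nat.primeCounting (Nat.primeCounting x) * Real.log x ^ 2 ∧
    √(x : ℝ) ≤ 1600 * Nat.primeCounting (Nat.primeCounting x) := by
  have hx3 : (3 : ℝ) ≤ x := by exact_mod_cast hx
  have hlog : 0 < Real.log x := Real.log_pos (by linarith)
  have h1 := cheb (q := x) (by omega)
  have hpi2 : 2 ≤ Nat.primeCounting x := by
    have h1 : pr 2 = 3 := by
      unfold pr
      exact Nat.nth_prime_one_eq_three
    have h2 := pi_pr (j := 2) (by norm_num)
    rw [h1] at h2
    calc 2 = Nat.primeCounting 3 := h2.symm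
      _ ≤ _ := Nat.monotone_primeCounting hx
  have h2 := cheb (q := Nat.primeCounting x) hpi2
  have hpile : Nat.primeCounting x ≤ x := by
    have h3 : Nat.primeCounting x = (Nat.primesLE x).card :=
      (Nat.primesLE_card_eq_primeCounting x).symm
    rw [h3, Nat.primesLE_eq_filter_Ioc_zero]
    refine (Finset.card_filter_le _ _).trans ?_
    simp
  have hpiR : (2 : ℝ) ≤ Nat.primeCounting x := by exact_mod_cast hpi2
  have hlogpi : Real.log (Nat.primeCounting x) ≤ Real.log x :=
    Real.log_le_log (by linarith) (by exact_mod_cast hpile)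
  have hlogpi0 : 0 < Real.log (Nat.primeCounting x) := Real.log_pos (by linarith)
  obtain ⟨N, hN⟩ : ∃ N : ℕ, N = Nat.primeCounting (Nat.primeCounting x) := ⟨_, rfl⟩
  rw [← hN] at h2 ⊢
  have hN0 : (0 : ℝ) ≤ N := Nat.cast_nonneg N
  have h4 : (x : ℝ) ≤ 100 * N * Real.log x ^ 2 := by
    calc (x : ℝ) ≤ 10 * Nat.primeCounting x * Real.log x := h1
      _ ≤ 10 * (10 * N * Real.log x) * Real.log x := by
        have : (Nat.primeCounting x : ℝ) ≤ 10 * N * Real.log x := h2.trans (by gcongr)
        gcongr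
      _ = 100 * N * Real.log x ^ 2 := by ring
  refine ⟨h4, ?_⟩
  have hs : (1 : ℝ) ≤ √(x : ℝ) := Real.one_le_sqrt.2 (by linarith)
  have h5 := Pool.Agent.PC.BlockB.log_sq_le hs
  rw [Real.log_sqrt (by linarith)] at h5
  have h6 : Real.log x ^ 2 ≤ 16 * √(x : ℝ) := by nlinarith
  have h7 : √(x : ℝ) * √(x : ℝ) = x := Real.mul_self_sqrt (by linarith)
  have h8 : √(x : ℝ) * √(x : ℝ) ≤ (1600 * N) * √(x : ℝ) := by
    rw [h7]
    calc (x : ℝ) ≤ 100 * N * Real.log x ^ 2 := h4
      _ ≤ 100 * N * (16 * √(x : ℝ)) := by gcongr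
      _ = _ := by ring
  exact le_of_mul_le_mul_right h8 (by linarith)

/-- Necessary condition: if the representable numbers have positive lower density then there are
many super twin primes and many twin primes. -/
theorem necessary (δ : ℝ) (hδ : 0 < δ) (N₀ : ℕ)
    (h : ∀ N : ℕ, N₀ ≤ N → δ * N ≤ (repCount N N : ℝ)) :
    ∃ c : ℝ, 0 < c ∧ ∀ x : ℕ, 3 ≤ x →
      c * Real.log x ≤ superCount x ∧ c * √(x : ℝ) / Real.log x ≤ twinCount x := by
  obtain ⟨C, hC, hA⟩ := aCount_bound
  obtain ⟨N₁, hN₁⟩ : ∃ N₁ : ℕ, N₁ = N₀ + 1600 := ⟨_, rfl⟩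
  obtain ⟨X, hX⟩ : ∃ X : ℝ, X = (1600 * (N₁ : ℝ)) := ⟨_, rfl⟩
  have hX1 : (1600 : ℝ) ≤ X := by
    rw [hX]
    have : (1 : ℝ) ≤ N₁ := by exact_mod_cast (show 1 ≤ N₁ by omega)
    linarith
  have hlX : 0 < Real.log X := Real.log_pos (by linarith)
  obtain ⟨c, hc⟩ : ∃ c : ℝ, c = min (min (δ / (4 * C)) (√δ / 10)) (min (1 / (2 * Real.log X))
    (1 / X)) := ⟨_, rfl⟩
  have hc0 : 0 < c := by
    rw [hc]
    positivity
  have hc1 : c ≤ δ / (4 * C) := by rw [hc]; exact (min_le_left _ _).trans (min_le_left _ _)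
  have hc2 : c ≤ √δ / 10 := by rw [hc]; exact (min_le_left _ _).trans (min_le_right _ _)
  have hc3 : c ≤ 1 / (2 * Real.log X) := by
    rw [hc]; exact (min_le_right _ _).trans (min_le_left _ _)
  have hc4 : c ≤ 1 / X := by rw [hc]; exact (min_le_right _ _).trans (min_le_right _ _)
  refine ⟨c, hc0, fun x hx => ?_⟩
  have hx3 : (3 : ℝ) ≤ x := by exact_mod_cast hx
  have hlog1 : 1 ≤ Real.log x := by
    rw [Real.le_log_iff_exp_le (by linarith)]
    exact Real.exp_one_lt_d9.le.trans (by linarith)
  obtain ⟨hg1, hg2⟩ := growth hx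
  have hidx : indexCount (Nat.primeCounting (Nat.primeCounting x)) ≤ superCount x :=
    indexCount_le le_rfl
  have hpile : ∀ y : ℕ, Nat.primeCounting y ≤ y := by
    intro y
    have h3 : Nat.primeCounting y = (Nat.primesLE y).card :=
      (Nat.primesLE_card_eq_primeCounting y).symm
    rw [h3, Nat.primesLE_eq_filter_Ioc_zero]
    refine (Finset.card_filter_le _ _).trans ?_
    simp
  have haa : aCount (Nat.primeCounting (Nat.primeCounting x)) ≤ twinCount x :=
    aCount_le (hpile _)
  obtain ⟨N, hN⟩ : ∃ N : ℕ, N = Nat.primeCounting (Nat.primeCounting x) := ⟨_, rfl⟩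
  rw [← hN] at hg1 hg2 hidx haa
  have hs1 := one_le_superCount hx
  have hst := superCount_le x
  have hsqrtpos : 0 < √(x : ℝ) := Real.sqrt_pos.2 (by linarith)
  have hlogsq : Real.log x = 2 * Real.log (√(x : ℝ)) := by
    rw [Real.log_sqrt (by linarith)]
    ring
  have hs1R : (1 : ℝ) ≤ superCount x := by exact_mod_cast hs1
  have hstR : (superCount x : ℝ) ≤ twinCount x := by exact_mod_cast hst
  by_cases hsmall : N < N₁
  · have h1 : √(x : ℝ) ≤ X := by
      refine hg2.trans ?_
      rw [hX]
      have : (N : ℝ) ≤ N₁ := by exact_mod_cast hsmall.le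
      linarith
    have h2 : Real.log x ≤ 2 * Real.log X := by
      rw [hlogsq]
      have := Real.log_le_log hsqrtpos h1
      linarith
    constructor
    · calc c * Real.log x ≤ (1 / (2 * Real.log X)) * (2 * Real.log X) := by gcongr
        _ = 1 := by field_simp
        _ ≤ _ := hs1R
    · rw [div_le_iff₀ (by linarith)]
      calc c * √(x : ℝ) ≤ (1 / X) * X := by gcongr
        _ = 1 := by field_simp
        _ ≤ twinCount x * Real.log x := by
          have : (1 : ℝ) ≤ twinCount x := hs1R.trans hstR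
          nlinarith
  · have hNN : N₁ ≤ N := not_lt.1 hsmall
    have hNR : (1600 : ℝ) ≤ N := by exact_mod_cast (show 1600 ≤ N by omega)
    have hrep := h N (by omega)
    have hrl : (repCount N N : ℝ) ≤ aCount N * indexCount N := by
      exact_mod_cast repCount_le N N
    have hlogN : 0 < Real.log N := Real.log_pos (by linarith)
    constructor
    · have h1 : Real.log x ≤ 4 * Real.log N := by
        rw [hlogsq]
        have h2 : Real.log √(x : ℝ) ≤ Real.log (1600 * N) := Real.log_le_log hsqrtpos hg2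
        rw [Real.log_mul (by norm_num) (by linarith)] at h2
        have h3 : Real.log 1600 ≤ Real.log N := Real.log_le_log (by norm_num) hNR
        linarith
      have h2 : δ * N ≤ C * (N / Real.log N) * superCount x := by
        calc δ * N ≤ aCount N * indexCount N := hrep.trans hrl
          _ ≤ (C * (N / Real.log N)) * superCount x := by
            have h3 := hA N (by omega)
            have h4 : (indexCount N : ℝ) ≤ superCount x := by exact_mod_cast hidx
            gcongr
      have h5 : δ * Real.log N ≤ C * superCount x := by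
        have h6 : C * (N / Real.log N) * superCount x = (C * superCount x / Real.log N) * N := by
          ring
        rw [h6] at h2
        have h7 := le_of_mul_le_mul_right h2 (by linarith)
        rwa [le_div_iff₀ hlogN] at h7
      calc c * Real.log x ≤ δ / (4 * C) * (4 * Real.log N) := by gcongr
        _ = δ * Real.log N / C := by field_simp
        _ ≤ superCount x := by
          rw [div_le_iff₀ hC]
          linarith
    · rw [div_le_iff₀ (by linarith)]
      have h1 : √(δ * N) ≤ twinCount x := by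
        rw [Real.sqrt_le_left (by linarith)]
        calc δ * N ≤ aCount N * indexCount N := hrep.trans hrl
          _ ≤ twinCount x * twinCount x := by
            have h3 : (aCount N : ℝ) ≤ twinCount x := by exact_mod_cast haa
            have h4 : (indexCount N : ℝ) ≤ twinCount x := by
              exact_mod_cast hidx.trans hst
            gcongr
          _ = _ := by ring
      have h2 : √(x : ℝ) ≤ 10 * √(N : ℝ) * Real.log x := by
        rw [Real.sqrt_le_left (by positivity)]
        refine hg1.trans (le_of_eq ?_)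
        rw [mul_pow, mul_pow, Real.sq_sqrt (by linarith)]
        ring
      calc c * √(x : ℝ) ≤ √δ / 10 * (10 * √(N : ℝ) * Real.log x) := by gcongr
        _ = √δ * √(N : ℝ) * Real.log x := by ring
        _ = √(δ * N) * Real.log x := by rw [Real.sqrt_mul hδ.le]
        _ ≤ twinCount x * Real.log x := by gcongr

end Pool.Agent.Helper20.TwinIndex
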