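import Pool.Agent.Helper84.Sign

set_option autoImplicit false

/-!
The Hodge projector of an abelian variety, its compatibilities, and the positive definite
Hermitian form attached to the polarisation (module B for theorem III of MP_bf54cf_ag).
-/

open scoped ComplexConjugate

namespace Pool.Agent.Helper7

open Module NumberField Pool.Agent.GPC

section comm

variable {κ κ' : Type} [Fintype κ] [DecidableEq κ] [Fintype κ'] [DecidableEq κ'] {ϖ ϖ' : ℂ}
  (P : PData κ ϖ) (P' : PData κ' ϖ')

/-- linear maps respecting the rational structures commute with complex conjugation -/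
lemma cB_comm' (f : (κ → ℂ) →ₗ[ℂ] (κ' → ℂ)) (hf : ∀ v ∈ P.Q, f v ∈ P'.Q) (v : κ → ℂ) :
    cB P' (f v) = f (cB P v) := by
  have e : cB P v = ∑ i, conj (P.bB.repr v i) • P.bB i := rfl
  conv_lhs => rw [← P.bB.sum_repr v]
  rw [map_sum, cB_sum, e, map_sum]
  refine Finset.sum_congr rfl fun i _ => ?_
  have := cB_smul P' (P.bB.repr v i) (f (P.bB i))
  rw [cB_of_mem P' _ (hf _ (P.basis_mem i))] at this
  rw [map_smul, map_smul]
  exact this

end comm

variable (A : AbVar)

/-- the Hodge projector: the projector of `H_1` onto the conjugate of `Fil` with kernel `Fil` -/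
noncomputable def hod : Module.End ℂ A.H1 where
  toFun v := Sum.elim (A.zz v) (fun a => bilForm A.q (Pi.single a 1) (A.zz v))
  map_add' u v := by
    funext s
    rcases s with a | a
    · change A.zz (u + v) a = A.zz u a + A.zz v a
      rw [map_add]; rfl
    · change bilForm A.q (Pi.single a 1) (A.zz (u + v)) =
        bilForm A.q (Pi.single a 1) (A.zz u) + bilForm A.q (Pi.single a 1) (A.zz v)
      rw [map_add, bilForm_add_right]
  map_smul' c v := by
    funext s
    rcases s with a | a
    · change A.zz (c • v) a = c * A.zz v a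
      rw [map_smul]; rfl
    · change bilForm A.q (Pi.single a 1) (A.zz (c • v)) =
        c * bilForm A.q (Pi.single a 1) (A.zz v)
      rw [map_smul, bilForm_smul_right]

lemma hod_apply (v : A.H1) : hod A v =
    Sum.elim (A.zz v) (fun a => bilForm A.q (Pi.single a 1) (A.zz v)) := rfl

lemma zz_hod (v : A.H1) : A.zz (hod A v) = A.zz v := rfl

/-- (B1) -/
lemma hod_idem (v : A.H1) : hod A (hod A v) = hod A v := rfl

/-- (B2) -/
lemma hod_fil {v : A.H1} : A.IsFil v ↔ hod A v = 0 := by
  rw [isFil_iff]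
  constructor
  · intro h
    have h0 : hod A v = hod A 0 := by
      rw [hod_apply, hod_apply, h, map_zero]
    rw [h0, map_zero]
  · intro h
    rw [← zz_hod, h, map_zero]

/-- the conjugate of the filtration is the image of the Hodge projector -/
lemma hod_cB_fil {u : A.H1} (hu : A.IsFil u) : hod A (cB (pData A) u) = cB (pData A) u := by
  obtain ⟨w, -, h2⟩ := fil_shape A u hu
  have hz : A.zz (cB (pData A) u) = (-2 * Complex.I) • w := by
    rw [h2, map_sub, map_smul]
    change -(Complex.I • w) - Complex.I • w = _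
    module
  funext s
  rcases s with a | a
  · rfl
  · change bilForm A.q (Pi.single a 1) (A.zz (cB (pData A) u)) = cB (pData A) u (Sum.inr a)
    rw [hz, h2]
    change _ = A.eta (-(Complex.I • w)) a - Complex.I * A.eta w a
    unfold AbVar.eta
    have e1 : -(Complex.I • w) = (-Complex.I) • w := by rw [neg_smul]
    rw [e1, hermForm_smul_right, bilForm_smul_right, bilForm_smul_right, map_neg, Complex.conj_I]
    ring

/-- the Hodge projector in terms of the Hodge decomposition -/
lemma hod_add_cB {u u' : A.H1} (hu : A.IsFil u) (hu' : A.IsFil u') :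
    hod A (u + cB (pData A) u') = cB (pData A) u' := by
  rw [map_add, (hod_fil A).mp hu, zero_add, hod_cB_fil A hu']

lemma fil_sub_hod (v : A.H1) : A.IsFil (v - hod A v) := by
  rw [hod_fil, map_sub, hod_idem, sub_self]

lemma fil_cB_hod (v : A.H1) : A.IsFil (cB (pData A) (hod A v)) := by
  obtain ⟨u, u', hu, hu', rfl⟩ := exists_hodge A v
  rw [hod_add_cB A hu hu', cB_cB]
  exact hu'

/-- (B3) -/
lemma psi_hod (u v : A.H1) :
    (pData A).ψ (hod A u) v + (pData A).ψ u (hod A v) = (pData A).ψ u v := by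
  obtain ⟨a, b, ha, hb, rfl⟩ := exists_hodge A u
  obtain ⟨a', b', ha', hb', rfl⟩ := exists_hodge A v
  rw [hod_add_cB A ha hb, hod_add_cB A ha' hb']
  rw [map_add, map_add (pData A).ψ, LinearMap.add_apply, LinearMap.add_apply, map_add, map_add,
    fil_isotropic A ha ha', conj_isotropic A hb hb']
  ring

/-- (B4) morphisms commute with the Hodge projectors -/
lemma hod_comm {A B : AbVar} (f : A.H1 →ₗ[ℂ] B.H1) (hf : IsDRB (pData A) (pData B) f)
    (v : A.H1) : f (hod A v) = hod B (f v) := by
  have hfil : ∀ v, A.IsFil v → B.IsFil (f v) :=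
    hom_fil A B f f.isLinear ((isDRB_iff A B f).mp hf).1 ((isDRB_iff A B f).mp hf).2
  obtain ⟨a, b, ha, hb, rfl⟩ := exists_hodge A v
  have hc : f (cB (pData A) b) = cB (pData B) (f b) :=
    (cB_comm' (pData A) (pData B) f hf.rat b).symm
  rw [hod_add_cB A ha hb, map_add, hc, hod_add_cB B (hfil a ha) (hfil b hb)]

/-- (B4c) maps commuting with the Hodge projector respect the filtration -/
lemma fil_of_hod_comm {A B : AbVar} (f : A.H1 →ₗ[ℂ] B.H1)
    (hf : ∀ v, f (hod A v) = hod B (f v)) {v : A.H1} (hv : A.IsFil v) : B.IsFil (f v) := by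
  rw [hod_fil, ← hf, (hod_fil A).mp hv, map_zero]

/-- endomorphisms commute with the Hodge projector -/
lemma hod_comm_end (f : A.H1 →ₗ[ℂ] A.H1) (hf : A.IsEnd f) (v : A.H1) :
    f (hod A v) = hod A (f v) :=
  hod_comm f (isDRB_of_isEnd A f hf) v

/-- (B5) -/
lemma cB_hod (v : A.H1) : cB (pData A) (hod A v) = cB (pData A) v - hod A (cB (pData A) v) := by
  obtain ⟨a, b, ha, hb, rfl⟩ := exists_hodge A v
  rw [hod_add_cB A ha hb, cB_add, cB_cB, add_comm (cB (pData A) a) b, hod_add_cB A hb ha]
  abel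

/-- the reflection `2 hod - 1` -/
noncomputable def refl' : Module.End ℂ A.H1 := (2 : ℂ) • hod A - 1

lemma refl'_apply (v : A.H1) : refl' A v = (2 : ℂ) • hod A v - v := rfl

lemma refl'_refl' (v : A.H1) : refl' A (refl' A v) = v := by
  rw [refl'_apply, refl'_apply, map_sub, map_smul, hod_idem]
  module

lemma refl'_add_cB {u u' : A.H1} (hu : A.IsFil u) (hu' : A.IsFil u') :
    refl' A (u + cB (pData A) u') = -u + cB (pData A) u' := by
  rw [refl'_apply, hod_add_cB A hu hu']
  module

lemma cB_refl' (v : A.H1) : cB (pData A) (refl' A v) = - refl' A (cB (pData A) v) := by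
  rw [refl'_apply, refl'_apply, cB_sub, cB_smul, cB_hod, map_ofNat]
  module

lemma psi_refl' (u v : A.H1) :
    (pData A).ψ (refl' A u) v = - (pData A).ψ u (refl' A v) := by
  have h := psi_hod A u v
  rw [refl'_apply, refl'_apply, map_sub (pData A).ψ, LinearMap.sub_apply, map_smul (pData A).ψ,
    LinearMap.smul_apply, map_sub, map_smul, smul_eq_mul, smul_eq_mul]
  linear_combination 2 * h

/-- (B6) the positive definite Hermitian form attached to the polarisation -/
noncomputable def Hf (u v : A.H1) : ℂ := (pData A).ψ u (cB (pData A) (refl' A v))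

lemma Hf_add_left (u u' v : A.H1) : Hf A (u + u') v = Hf A u v + Hf A u' v := by
  unfold Hf
  rw [map_add, LinearMap.add_apply]

lemma Hf_smul_left (c : ℂ) (u v : A.H1) : Hf A (c • u) v = c * Hf A u v := by
  unfold Hf
  rw [map_smul, LinearMap.smul_apply, smul_eq_mul]

lemma Hf_eq {a b a' b' : A.H1} (ha : A.IsFil a) (hb : A.IsFil b) (ha' : A.IsFil a')
    (hb' : A.IsFil b') : Hf A (a + cB (pData A) b) (a' + cB (pData A) b') =
      (pData A).ψ (cB (pData A) b) b' - (pData A).ψ a (cB (pData A) a') := by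
  unfold Hf
  rw [refl'_add_cB A ha' hb', cB_add, cB_cB, cB_neg, map_add (pData A).ψ, LinearMap.add_apply,
    map_add, map_add, map_neg, map_neg, fil_isotropic A ha hb', conj_isotropic A hb ha']
  ring

lemma psi_swap (u v : A.H1) : (pData A).ψ u v = - (pData A).ψ v u := (pData A).hψalt u v

lemma Hf_symm (u v : A.H1) : Hf A u v = conj (Hf A v u) := by
  obtain ⟨a, b, ha, hb, rfl⟩ := exists_hodge A u
  obtain ⟨a', b', ha', hb', rfl⟩ := exists_hodge A v
  rw [Hf_eq A ha hb ha' hb', Hf_eq A ha' hb' ha hb, map_sub]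
  have h1 : conj ((pData A).ψ (cB (pData A) b') b) = (pData A).ψ (cB (pData A) b) b' := by
    have h := psi_cB (pData A) (cB (pData A) b') b
    rw [cB_cB] at h
    rw [psi_swap A (cB (pData A) b) b', h, neg_neg]
  have h2 : conj ((pData A).ψ a' (cB (pData A) a)) = (pData A).ψ a (cB (pData A) a') := by
    have h := psi_cB (pData A) a' (cB (pData A) a)
    rw [cB_cB] at h
    rw [psi_swap A a (cB (pData A) a'), h, neg_neg]
  rw [h1, h2]

lemma Hf_pos (v : A.H1) (hv : v ≠ 0) : 0 < (Hf A v v).re ∧ (Hf A v v).im = 0 := by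
  obtain ⟨a, b, ha, hb, rfl⟩ := exists_hodge A v
  rw [Hf_eq A ha hb ha hb]
  have h1 : ∃ r : ℝ, 0 ≤ r ∧ (a ≠ 0 → 0 < r) ∧ (pData A).ψ a (cB (pData A) a) = -(r : ℂ) := by
    by_cases h0 : a = 0
    · refine ⟨0, le_rfl, fun h => absurd h0 h, ?_⟩
      rw [h0, map_zero, LinearMap.zero_apply, Complex.ofReal_zero, neg_zero]
    · obtain ⟨r, hr, h⟩ := sign_fil A ha h0
      exact ⟨r, hr.le, fun _ => hr, h⟩
  have h2 : ∃ r : ℝ, 0 ≤ r ∧ (b ≠ 0 → 0 < r) ∧ (pData A).ψ (cB (pData A) b) b = (r : ℂ) := by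
    by_cases h0 : b = 0
    · refine ⟨0, le_rfl, fun h => absurd h0 h, ?_⟩
      rw [h0, map_zero, Complex.ofReal_zero]
    · obtain ⟨r, hr, h⟩ := sign_conj A hb h0
      rw [cB_cB] at h
      exact ⟨r, hr.le, fun _ => hr, h⟩
  obtain ⟨r, hr, hr', h1⟩ := h1
  obtain ⟨s, hs, hs', h2⟩ := h2
  rw [h1, h2]
  have e : ((s : ℂ) - -(r : ℂ)) = ((s + r : ℝ) : ℂ) := by push_cast; ring
  rw [e, Complex.ofReal_re, Complex.ofReal_im]
  refine ⟨?_, rfl⟩
  by_cases h0 : a = 0
  · have hb0 : b ≠ 0 := by
      intro hb0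
      apply hv
      rw [h0, hb0, cB_zero, add_zero]
    have := hs' hb0
    linarith
  · have := hr' h0
    linarith

/-- (B7) the adjoint of an infinitesimal isometry respecting the real structure -/
lemma Hf_adj (X : Module.End ℂ A.H1) (hX : ∀ v, cB (pData A) (X v) = X (cB (pData A) v))
    (hψ : ∀ u v, (pData A).ψ (X u) v + (pData A).ψ u (X v) = 0) (u v : A.H1) :
    Hf A (X u) v = - Hf A u (refl' A (X (refl' A v))) := by
  unfold Hf
  rw [refl'_refl', hX]
  exact eq_neg_of_add_eq_zero_left (hψ _ _)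

lemma Hf_refl' (u v : A.H1) : Hf A (refl' A u) v = Hf A u (refl' A v) := by
  unfold Hf
  rw [psi_refl', ← map_neg, ← cB_refl']

end Pool.Agent.Helper7
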