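import Mathlib

/-!
# Traces of squares of self-adjoint and skew-adjoint matrices for a positive definite form
(module P for theorem III of MP_bf54cf_ag)
-/

namespace Pool.Agent.Helper20

open Matrix
open scoped ComplexOrder

variable {m : Type*} [Fintype m] [DecidableEq m]

/-- A positive definite matrix is `Bᴴ * B` with `B` invertible. -/
theorem posDef_factor {H : Matrix m m ℂ} (hH : H.PosDef) :
    ∃ B C : Matrix m m ℂ, H = Bᴴ * B ∧ B * C = 1 ∧ C * B = 1 := by
  open scoped MatrixOrder in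
  obtain ⟨B, hB⟩ := CStarAlgebra.nonneg_iff_eq_star_mul_self.mp hH.posSemidef.nonneg
  have hu : IsUnit H := hH.isUnit
  have hdet : H.det ≠ 0 := by
    have := (Matrix.isUnit_iff_isUnit_det H).mp hu
    exact this.ne_zero
  have hBdet : B.det ≠ 0 := by
    intro h0
    apply hdet
    rw [hB, Matrix.star_eq_conjTranspose, Matrix.det_mul, h0, mul_zero]
  have hBu : IsUnit B.det := isUnit_iff_ne_zero.mpr hBdet
  exact ⟨B, B⁻¹, by rw [hB, Matrix.star_eq_conjTranspose],
    Matrix.mul_nonsing_inv B hBu, Matrix.nonsing_inv_mul B hBu⟩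

omit [DecidableEq m] in
theorem trace_conjTranspose_mul_self_real (N : Matrix m m ℂ) :
    ∃ r : ℝ, 0 ≤ r ∧ (Nᴴ * N).trace = r ∧ (r = 0 → N = 0) := by
  have h0 : 0 ≤ (Nᴴ * N).trace := (Matrix.posSemidef_conjTranspose_mul_self N).trace_nonneg
  obtain ⟨h1, h2⟩ := Complex.nonneg_iff.mp h0
  refine ⟨(Nᴴ * N).trace.re, h1, ?_, ?_⟩
  · apply Complex.ext
    · simp
    · simpa using h2.symm
  · intro hr
    have : (Nᴴ * N).trace = 0 := by
      apply Complex.ext
      · simpa using hr
      · simpa using h2.symm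
    exact Matrix.trace_conjTranspose_mul_self_eq_zero_iff.mp this

/-- (P1) The square of a matrix self-adjoint for a positive definite form has real nonnegative
trace, which vanishes only for the zero matrix. -/
theorem selfAdj_trace_sq {H M : Matrix m m ℂ} (hH : H.PosDef) (hM : Mᴴ * H = H * M) :
    ∃ r : ℝ, 0 ≤ r ∧ (M * M).trace = r ∧ (r = 0 → M = 0) := by
  obtain ⟨B, C, rfl, hBC, hCB⟩ := posDef_factor hH
  have hBC' : Cᴴ * Bᴴ = 1 := by rw [← Matrix.conjTranspose_mul, hBC, Matrix.conjTranspose_one]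
  obtain ⟨r, hr0, hr1, hr2⟩ := trace_conjTranspose_mul_self_real (B * M * C)
  have hN : (B * M * C)ᴴ = B * M * C := by
    have h1 : Cᴴ * (Mᴴ * (Bᴴ * B)) * C = Cᴴ * (Bᴴ * B * M) * C := by rw [hM]
    have h2 : Cᴴ * (Mᴴ * (Bᴴ * B)) * C = Cᴴ * Mᴴ * Bᴴ := by
      calc Cᴴ * (Mᴴ * (Bᴴ * B)) * C = Cᴴ * Mᴴ * Bᴴ * (B * C) := by
            simp only [Matrix.mul_assoc]
        _ = _ := by rw [hBC, Matrix.mul_one]
    have h3 : Cᴴ * (Bᴴ * B * M) * C = B * M * C := by
      calc Cᴴ * (Bᴴ * B * M) * C = (Cᴴ * Bᴴ) * (B * M * C) := by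
            simp only [Matrix.mul_assoc]
        _ = _ := by rw [hBC', Matrix.one_mul]
    rw [Matrix.conjTranspose_mul, Matrix.conjTranspose_mul, ← Matrix.mul_assoc, ← h2, h1, h3]
  refine ⟨r, hr0, ?_, ?_⟩
  · rw [← hr1, hN]
    calc (M * M).trace = (M * M * (C * B)).trace := by rw [hCB, Matrix.mul_one]
      _ = ((M * M * C) * B).trace := by rw [Matrix.mul_assoc (M * M)]
      _ = (B * (M * M * C)).trace := Matrix.trace_mul_comm _ _
      _ = (B * (M * (C * B) * M * C)).trace := by rw [hCB, Matrix.mul_one]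
      _ = _ := by simp only [Matrix.mul_assoc]
  · intro h0
    have hz := hr2 h0
    calc M = (C * B) * M * (C * B) := by rw [hCB, Matrix.one_mul, Matrix.mul_one]
      _ = C * (B * M * C) * B := by simp only [Matrix.mul_assoc]
      _ = 0 := by rw [hz, Matrix.mul_zero, Matrix.zero_mul]

/-- (P2) The square of a matrix skew-adjoint for a positive definite form has real nonpositive
trace, which vanishes only for the zero matrix. -/
theorem skewAdj_trace_sq {H M : Matrix m m ℂ} (hH : H.PosDef) (hM : Mᴴ * H = -(H * M)) :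
    ∃ r : ℝ, 0 ≤ r ∧ (M * M).trace = -r ∧ (r = 0 → M = 0) := by
  have hI : (Complex.I • M)ᴴ * H = H * (Complex.I • M) := by
    rw [Matrix.conjTranspose_smul, Matrix.smul_mul, hM, Matrix.mul_smul]
    simp
  obtain ⟨r, hr0, hr1, hr2⟩ := selfAdj_trace_sq hH hI
  refine ⟨r, hr0, ?_, ?_⟩
  · rw [Matrix.smul_mul, Matrix.mul_smul, smul_smul, Complex.I_mul_I, Matrix.trace_smul] at hr1
    have : -(M * M).trace = (r : ℂ) := by simpa using hr1
    rw [← this, neg_neg]
  · intro h0
    have := hr2 h0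
    have h2 : Complex.I • (Complex.I • M) = 0 := by rw [this, smul_zero]
    rw [smul_smul, Complex.I_mul_I, neg_one_smul, neg_eq_zero] at h2
    exact h2

/-- (P3, first half) the skew-adjointness of the part of `X` commuting with `h`. -/
theorem commPart_skewAdj {H h X l r : Matrix m m ℂ} {s : ℂ} [Nonempty m] (hH : H.PosDef)
    (hh : h * h = 1) (hadj : hᴴ * H = H * h)
    (hX : Xᴴ * H = -(H * (h * X * h))) (hsum : X = l + r) (hl : l * h = h * l)
    (htr : (l * h).trace = 0) (hr : r + h * r * h = (2 * s) • h) :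
    lᴴ * H = -(H * l) := by
  -- the matrix `m = X + hXh` is skew-adjoint
  have hXh : (h * X * h)ᴴ * H = -(H * X) := by
    calc (h * X * h)ᴴ * H = hᴴ * Xᴴ * (hᴴ * H) := by
          simp only [Matrix.conjTranspose_mul, Matrix.mul_assoc]
      _ = hᴴ * (Xᴴ * H) * h := by rw [hadj]; simp only [Matrix.mul_assoc]
      _ = -((hᴴ * H) * (h * X * h) * h) := by
          rw [hX]; simp only [Matrix.mul_neg, Matrix.neg_mul, Matrix.mul_assoc]
      _ = -(H * (h * h) * X * (h * h)) := by rw [hadj]; simp only [Matrix.mul_assoc]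
      _ = -(H * X) := by rw [hh, Matrix.mul_one, Matrix.mul_one]
  have hm : (X + h * X * h)ᴴ * H = -(H * (X + h * X * h)) := by
    rw [Matrix.conjTranspose_add, Matrix.add_mul, hX, hXh, Matrix.mul_add]
    abel
  have hlh : h * l * h = l := by rw [← hl, Matrix.mul_assoc, hh, Matrix.mul_one]
  have hm2 : X + h * X * h = (2 : ℂ) • l + (2 * s) • h := by
    have : X + h * X * h = (l + h * l * h) + (r + h * r * h) := by
      rw [hsum]; simp only [Matrix.mul_add, Matrix.add_mul]; abel
    rw [this, hlh, hr, two_smul]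
  -- trace of `m h`
  set M := X + h * X * h with hMdef
  have htrMh : (M * h).trace = 2 * s * (Fintype.card m : ℂ) := by
    rw [hm2, Matrix.add_mul, Matrix.smul_mul, Matrix.smul_mul, hh, Matrix.trace_add,
      Matrix.trace_smul, Matrix.trace_smul, htr, Matrix.trace_one]
    simp
  obtain ⟨B, C, hHB, hBC, hCB⟩ := posDef_factor hH
  have hHinv : ∃ K : Matrix m m ℂ, H * K = 1 ∧ K * H = 1 := by
    have hBC' : Cᴴ * Bᴴ = 1 := by rw [← Matrix.conjTranspose_mul, hBC, Matrix.conjTranspose_one]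
    have hCB' : Bᴴ * Cᴴ = 1 := by rw [← Matrix.conjTranspose_mul, hCB, Matrix.conjTranspose_one]
    refine ⟨C * Cᴴ, ?_, ?_⟩
    · calc H * (C * Cᴴ) = Bᴴ * (B * C) * Cᴴ := by rw [hHB]; simp only [Matrix.mul_assoc]
        _ = 1 := by rw [hBC, Matrix.mul_one, hCB']
    · calc C * Cᴴ * H = C * (Cᴴ * Bᴴ) * B := by rw [hHB]; simp only [Matrix.mul_assoc]
        _ = 1 := by rw [hBC', Matrix.mul_one, hCB]
  obtain ⟨K, hHK, hKH⟩ := hHinv
  have hMc : Mᴴ = -(H * M * K) := by
    calc Mᴴ = Mᴴ * H * K := by rw [Matrix.mul_assoc, hHK, Matrix.mul_one]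
      _ = _ := by rw [hm]; simp only [Matrix.neg_mul]
  have hhc : hᴴ = H * h * K := by
    calc hᴴ = hᴴ * H * K := by rw [Matrix.mul_assoc, hHK, Matrix.mul_one]
      _ = _ := by rw [hadj]
  have hstar : star (M * h).trace = -(M * h).trace := by
    rw [← Matrix.trace_conjTranspose, Matrix.conjTranspose_mul, hMc, hhc, Matrix.mul_neg,
      Matrix.trace_neg]
    congr 1
    calc (H * h * K * (H * M * K)).trace = (H * h * (K * H) * M * K).trace := by
          simp only [Matrix.mul_assoc]
      _ = ((H * h * M) * K).trace := by rw [hKH, Matrix.mul_one]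
      _ = (K * (H * h * M)).trace := Matrix.trace_mul_comm _ _
      _ = (K * H * (h * M)).trace := by simp only [Matrix.mul_assoc]
      _ = (h * M).trace := by rw [hKH, Matrix.one_mul]
      _ = (M * h).trace := Matrix.trace_mul_comm _ _
  have hcard : (Fintype.card m : ℂ) ≠ 0 := by
    exact_mod_cast Fintype.card_ne_zero
  have hs : star s = -s := by
    rw [htrMh] at hstar
    have h1 : star (2 * s * (Fintype.card m : ℂ)) = 2 * star s * (Fintype.card m : ℂ) := by
      simp
    rw [h1] at hstar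
    have h2 : (2 * (Fintype.card m : ℂ)) * (star s + s) = 0 := by
      linear_combination hstar
    have h3 : star s + s = 0 := by
      rcases mul_eq_zero.mp h2 with h | h
      · exact absurd h (mul_ne_zero two_ne_zero hcard)
      · exact h
    linear_combination h3
  have h2l : (2 : ℂ) • l = M - (2 * s) • h := by rw [hm2]; abel
  have hfin : ((2 : ℂ) • l)ᴴ * H = -(H * ((2 : ℂ) • l)) := by
    rw [h2l, Matrix.conjTranspose_sub, Matrix.sub_mul, hm, Matrix.conjTranspose_smul,
      Matrix.smul_mul, hadj, Matrix.mul_sub, Matrix.mul_smul]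
    have : star (2 * s) = -(2 * s) := by
      rw [star_mul, hs]; simp [mul_comm]
    rw [this, neg_smul]
    abel
  have h2 : (2 : ℂ) • (lᴴ * H) = (2 : ℂ) • (-(H * l)) := by
    have e1 : ((2 : ℂ) • l)ᴴ * H = (2 : ℂ) • (lᴴ * H) := by
      rw [Matrix.conjTranspose_smul, Matrix.smul_mul]; simp
    have e2 : -(H * ((2 : ℂ) • l)) = (2 : ℂ) • (-(H * l)) := by
      rw [Matrix.mul_smul, smul_neg]
    rw [← e1, ← e2, hfin]
  exact smul_right_injective (Matrix m m ℂ) (two_ne_zero : (2 : ℂ) ≠ 0) h2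

/-- (P3) -/
theorem commPart_trace_sq {H h X l r : Matrix m m ℂ} {s : ℂ} [Nonempty m] (hH : H.PosDef)
    (hh : h * h = 1) (hadj : hᴴ * H = H * h)
    (hX : Xᴴ * H = -(H * (h * X * h))) (hsum : X = l + r) (hl : l * h = h * l)
    (htr : (l * h).trace = 0) (hr : r + h * r * h = (2 * s) • h) :
    ∃ t : ℝ, 0 ≤ t ∧ (l * l).trace = -t ∧ (t = 0 → l = 0) :=
  skewAdj_trace_sq hH (commPart_skewAdj hH hh hadj hX hsum hl htr hr)

/-- (P4) -/
theorem anticomm_trace_sq {H h X : Matrix m m ℂ} (hH : H.PosDef)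
    (hh : h * h = 1) (hX : Xᴴ * H = -(H * (h * X * h))) (hanti : h * X = -(X * h))
    (hX0 : X ≠ 0) :
    ∃ r : ℝ, 0 < r ∧ (X * X).trace = r := by
  have h1 : h * X * h = -X := by
    rw [hanti, Matrix.neg_mul, Matrix.mul_assoc, hh, Matrix.mul_one]
  have h2 : Xᴴ * H = H * X := by rw [hX, h1, Matrix.mul_neg, neg_neg]
  obtain ⟨r, hr0, hr1, hr2⟩ := selfAdj_trace_sq hH h2
  refine ⟨r, lt_of_le_of_ne hr0 ?_, hr1⟩
  intro h0
  exact hX0 (hr2 h0.symm)

section Basis

variable {V : Type*} [AddCommGroup V] [Module ℂ V]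

/-- The matrix of a form, linear in the first variable and conjugate-linear in the second, in the
convention in which it reads `Hf u v = star [v] ⬝ᵥ (H *ᵥ [u])`. -/
noncomputable def formMat (b : Module.Basis m ℂ V) (Hf : V → V → ℂ) : Matrix m m ℂ :=
  Matrix.of fun i j => Hf (b j) (b i)

theorem form_eq_formMat (b : Module.Basis m ℂ V) (Hf : V → V → ℂ)
    (hadd : ∀ u u' v, Hf (u + u') v = Hf u v + Hf u' v)
    (hsmul : ∀ (c : ℂ) u v, Hf (c • u) v = c * Hf u v)
    (hherm : ∀ u v, Hf u v = star (Hf v u)) (u v : V) :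
    Hf u v = star (b.repr v) ⬝ᵥ (formMat b Hf *ᵥ (b.repr u)) := by
  have hadd2 : ∀ u v v', Hf u (v + v') = Hf u v + Hf u v' := by
    intro u v v'
    rw [hherm, hadd, star_add, ← hherm, ← hherm]
  have hsmul2 : ∀ (c : ℂ) u v, Hf u (c • v) = star c * Hf u v := by
    intro c u v
    rw [hherm, hsmul, star_mul, ← hherm, mul_comm]
  have hzero1 : ∀ v, Hf 0 v = 0 := by
    intro v; have := hsmul 0 0 v; simpa using this
  have hzero2 : ∀ u, Hf u 0 = 0 := by
    intro u; have := hsmul2 0 u 0; simpa using this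
  have hsum1 : ∀ (s : Finset m) (f : m → V) (v : V), Hf (∑ j ∈ s, f j) v = ∑ j ∈ s, Hf (f j) v := by
    intro s f v
    classical
    induction s using Finset.induction_on with
    | empty => simp [hzero1]
    | insert a s ha ih => rw [Finset.sum_insert ha, hadd, ih, Finset.sum_insert ha]
  have hsum2 : ∀ (s : Finset m) (f : m → V) (u : V), Hf u (∑ j ∈ s, f j) = ∑ j ∈ s, Hf u (f j) := by
    intro s f u
    classical
    induction s using Finset.induction_on with
    | empty => simp [hzero2]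
    | insert a s ha ih => rw [Finset.sum_insert ha, hadd2, ih, Finset.sum_insert ha]
  conv_lhs => rw [← b.sum_repr u, ← b.sum_repr v]
  rw [hsum2]
  simp only [dotProduct, Matrix.mulVec, formMat, Matrix.of_apply, Pi.star_apply]
  refine Finset.sum_congr rfl fun i _ => ?_
  rw [hsmul2, hsum1]
  congr 1
  refine Finset.sum_congr rfl fun j _ => ?_
  rw [hsmul, mul_comm]

/-- (P5, first half) the matrix of a positive definite Hermitian form is positive definite. -/
theorem formMat_posDef (b : Module.Basis m ℂ V) (Hf : V → V → ℂ)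
    (hadd : ∀ u u' v, Hf (u + u') v = Hf u v + Hf u' v)
    (hsmul : ∀ (c : ℂ) u v, Hf (c • u) v = c * Hf u v)
    (hherm : ∀ u v, Hf u v = star (Hf v u))
    (hpos : ∀ v, v ≠ 0 → 0 < (Hf v v).re ∧ (Hf v v).im = 0) :
    (formMat b Hf).PosDef := by
  rw [Matrix.posDef_iff_dotProduct_mulVec]
  constructor
  · ext i j
    simp only [Matrix.conjTranspose_apply, formMat, Matrix.of_apply]
    exact (hherm _ _).symm
  · intro x hx
    set v : V := b.equivFun.symm x with hv
    have hrepr : (b.repr v : m → ℂ) = x := by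
      have : b.equivFun v = x := by rw [hv]; exact b.equivFun.apply_symm_apply x
      rw [← this]; rfl
    have hv0 : v ≠ 0 := by
      intro h0
      apply hx
      rw [← hrepr, h0]; simp
    have h1 := form_eq_formMat b Hf hadd hsmul hherm v v
    rw [hrepr] at h1
    rw [← h1]
    obtain ⟨h2, h3⟩ := hpos v hv0
    exact Complex.pos_iff.mpr ⟨h2, h3.symm⟩

/-- (P5, second half) adjoint operators and their matrices. -/
theorem formMat_adjoint (b : Module.Basis m ℂ V) (Hf : V → V → ℂ)
    (hadd : ∀ u u' v, Hf (u + u') v = Hf u v + Hf u' v)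
    (hsmul : ∀ (c : ℂ) u v, Hf (c • u) v = c * Hf u v)
    (hherm : ∀ u v, Hf u v = star (Hf v u))
    (T T' : V →ₗ[ℂ] V) (hT : ∀ u v, Hf (T u) v = Hf u (T' v)) :
    (LinearMap.toMatrix b b T')ᴴ * formMat b Hf = formMat b Hf * LinearMap.toMatrix b b T := by
  ext i j
  have h1 := hT (b j) (b i)
  rw [form_eq_formMat b Hf hadd hsmul hherm, form_eq_formMat b Hf hadd hsmul hherm (b j)] at h1
  have hTj : (b.repr (T (b j)) : m → ℂ) = fun k => LinearMap.toMatrix b b T k j := by
    funext k; rw [LinearMap.toMatrix_apply]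
  have hTi : (b.repr (T' (b i)) : m → ℂ) = fun k => LinearMap.toMatrix b b T' k i := by
    funext k; rw [LinearMap.toMatrix_apply]
  have hbj : (b.repr (b j) : m → ℂ) = Pi.single j 1 := by
    rw [b.repr_self]; ext k; simp [Finsupp.single_apply, Pi.single_apply, eq_comm]
  have hbi : (b.repr (b i) : m → ℂ) = Pi.single i 1 := by
    rw [b.repr_self]; ext k; simp [Finsupp.single_apply, Pi.single_apply, eq_comm]
  rw [hTj, hTi, hbj, hbi] at h1
  rw [Matrix.mul_apply, Matrix.mul_apply]
  have e1 : star (Pi.single i (1 : ℂ) : m → ℂ) ⬝ᵥ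
      (formMat b Hf *ᵥ fun k => LinearMap.toMatrix b b T k j) =
      ∑ k, formMat b Hf i k * LinearMap.toMatrix b b T k j := by
    have : star (Pi.single i (1 : ℂ) : m → ℂ) = Pi.single i 1 := by
      ext k; by_cases hk : k = i
      · subst hk; simp
      · simp [hk]
    rw [this, single_one_dotProduct]
    rfl
  have e2 : star (fun k => LinearMap.toMatrix b b T' k i) ⬝ᵥ
      (formMat b Hf *ᵥ (Pi.single j (1 : ℂ) : m → ℂ)) =
      ∑ k, (LinearMap.toMatrix b b T')ᴴ i k * formMat b Hf k j := by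
    rw [Matrix.mulVec_single_one]
    rfl
  rw [e1, e2] at h1
  exact h1.symm

end Basis

end Pool.Agent.Helper20
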