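import Pool.Agent.Helper20.Hodge
import Pool.Agent.Helper20.PosTr
import Pool.Agent.Helper7.U.UF

set_option autoImplicit false

/-!
The place version of the positive form (B8): matrices on the eigenspaces of a field of
endomorphisms (module B for theorem III of MP_bf54cf_ag).
-/

open scoped ComplexConjugate ComplexOrder

namespace Pool.Agent.Helper7

open Module NumberField Pool.Agent.GPC

namespace UF

section general

variable {κ : Type} [Fintype κ] [DecidableEq κ] {ϖ : ℂ} {P : PData κ ϖ} {K : Type} [Field K]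
    [NumberField K] {r : ℕ} (F : UF P K r)

/-- the matrix of an endomorphism on the eigenspace of `σ` -/
noncomputable def matAt (σ : K →+* ℂ) (Y : Module.End ℂ (κ → ℂ)) : Matrix (Fin r) (Fin r) ℂ :=
  Matrix.of fun a b => F.co σ a (Y (F.e σ b))

lemma matAt_apply (σ : K →+* ℂ) (Y : Module.End ℂ (κ → ℂ)) (a b : Fin r) :
    F.matAt σ Y a b = F.co σ a (Y (F.e σ b)) := rfl

lemma co_e_self (σ : K →+* ℂ) (a b : Fin r) :
    F.co σ a (F.e σ b) = if a = b then 1 else 0 := by
  classical
  rw [F.co_e]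
  by_cases h : a = b
  · rw [if_pos ⟨rfl, h⟩, if_pos h]
  · rw [if_neg (fun h' => h h'.2), if_neg h]

lemma matAt_one (σ : K →+* ℂ) : F.matAt σ 1 = 1 := by
  ext a b
  rw [matAt_apply, Module.End.one_apply, F.co_e_self, Matrix.one_apply]

variable {F} in
lemma Comm.act' {X : Module.End ℂ (κ → ℂ)} (hX : F.Comm X) (σ : K →+* ℂ) (j : Fin r) :
    X (F.e σ j) = ∑ a, F.matAt σ X a j • F.e σ a := hX.act σ j

lemma matAt_mul (σ : K →+* ℂ) (Y : Module.End ℂ (κ → ℂ)) {Z : Module.End ℂ (κ → ℂ)}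
    (hZ : F.Comm Z) : F.matAt σ (Y * Z) = F.matAt σ Y * F.matAt σ Z := by
  ext a b
  rw [matAt_apply, Module.End.mul_apply, hZ.act' σ b, map_sum, map_sum, Matrix.mul_apply]
  refine Finset.sum_congr rfl fun c _ => ?_
  rw [map_smul, map_smul, smul_eq_mul, matAt_apply F σ Y, mul_comm]

lemma matAt_add (σ : K →+* ℂ) (Y Z : Module.End ℂ (κ → ℂ)) :
    F.matAt σ (Y + Z) = F.matAt σ Y + F.matAt σ Z := by
  ext a b
  rw [matAt_apply, LinearMap.add_apply, map_add]
  rfl

lemma matAt_sub (σ : K →+* ℂ) (Y Z : Module.End ℂ (κ → ℂ)) :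
    F.matAt σ (Y - Z) = F.matAt σ Y - F.matAt σ Z := by
  ext a b
  rw [matAt_apply, LinearMap.sub_apply, map_sub]
  rfl

lemma matAt_neg (σ : K →+* ℂ) (Y : Module.End ℂ (κ → ℂ)) :
    F.matAt σ (-Y) = - F.matAt σ Y := by
  ext a b
  rw [matAt_apply, LinearMap.neg_apply, map_neg]
  rfl

lemma matAt_smul (σ : K →+* ℂ) (c : ℂ) (Y : Module.End ℂ (κ → ℂ)) :
    F.matAt σ (c • Y) = c • F.matAt σ Y := by
  ext a b
  rw [matAt_apply, LinearMap.smul_apply, map_smul]
  rfl

variable {F} in
/-- an endomorphism commuting with the field vanishes if all its matrices vanish -/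
lemma Comm.eq_zero {X : Module.End ℂ (κ → ℂ)} (hX : F.Comm X) (h : ∀ σ, F.matAt σ X = 0) :
    X = 0 := by
  refine LinearMap.ext fun v => ?_
  refine F.ext_e X 0 (fun σ j => ?_) v
  rw [hX.act', LinearMap.zero_apply]
  refine Finset.sum_eq_zero fun a _ => ?_
  rw [h σ, Matrix.zero_apply, zero_smul]

variable {F} in
lemma Comm.mul {X Y : Module.End ℂ (κ → ℂ)} (hX : F.Comm X) (hY : F.Comm Y) :
    F.Comm (X * Y) := by
  intro x v
  rw [Module.End.mul_apply, Module.End.mul_apply, hY, hX]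

/-- combinations of the adapted vectors -/
noncomputable def comb (σ : K →+* ℂ) : (Fin r → ℂ) →ₗ[ℂ] (κ → ℂ) where
  toFun x := ∑ j, x j • F.e σ j
  map_add' x y := by
    rw [← Finset.sum_add_distrib]
    exact Finset.sum_congr rfl fun j _ => by rw [Pi.add_apply, add_smul]
  map_smul' c x := by
    rw [RingHom.id_apply, Finset.smul_sum]
    exact Finset.sum_congr rfl fun j _ => by rw [Pi.smul_apply, smul_smul, smul_eq_mul]

lemma comb_apply (σ : K →+* ℂ) (x : Fin r → ℂ) : F.comb σ x = ∑ j, x j • F.e σ j := rfl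

lemma comb_single (σ : K →+* ℂ) (j : Fin r) : F.comb σ (Pi.single j 1) = F.e σ j := by
  rw [comb_apply, Finset.sum_eq_single j]
  · rw [Pi.single_eq_same, one_smul]
  · intro b _ hb
    rw [Pi.single_eq_of_ne hb, zero_smul]
  · intro h; exact absurd (Finset.mem_univ _) h

lemma co_comb (σ : K →+* ℂ) (x : Fin r → ℂ) (a : Fin r) : F.co σ a (F.comb σ x) = x a := by
  rw [comb_apply, map_sum, Finset.sum_eq_single a]
  · rw [map_smul, F.co_e_self, if_pos rfl, smul_eq_mul, mul_one]
  · intro b _ hb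
    rw [map_smul, F.co_e_self, if_neg (Ne.symm hb), smul_zero]
  · intro h; exact absurd (Finset.mem_univ _) h

lemma comb_ne_zero (σ : K →+* ℂ) {x : Fin r → ℂ} (hx : x ≠ 0) : F.comb σ x ≠ 0 := by
  intro h
  apply hx
  funext a
  rw [← F.co_comb σ x a, h, map_zero, Pi.zero_apply]

end general

section av

variable {A : AbVar} {K : Type} [Field K] [NumberField K] {r : ℕ} (F : UF (pData A) K r)

/-- the matrix of the positive form on the eigenspace of `σ` -/
noncomputable def HM (σ : K →+* ℂ) : Matrix (Fin r) (Fin r) ℂ :=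
  Matrix.of fun i j => Hf A (F.e σ j) (F.e σ i)

lemma HM_apply (σ : K →+* ℂ) (i j : Fin r) : F.HM σ i j = Hf A (F.e σ j) (F.e σ i) := rfl

lemma HM_posDef (σ : K →+* ℂ) : (F.HM σ).PosDef := by
  have h1 : F.HM σ = Pool.Agent.Helper20.formMat (Pi.basisFun ℂ (Fin r))
      (fun x y => Hf A (F.comb σ x) (F.comb σ y)) := by
    ext i j
    rw [HM_apply, Pool.Agent.Helper20.formMat, Matrix.of_apply, Pi.basisFun_apply,
      Pi.basisFun_apply, comb_single, comb_single]
  rw [h1]
  refine Pool.Agent.Helper20.formMat_posDef _ _ ?_ ?_ ?_ ?_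
  · intro u u' v
    rw [map_add, Hf_add_left]
  · intro c u v
    rw [map_smul, Hf_smul_left]
  · intro u v
    exact Hf_symm A _ _
  · intro v hv
    exact Hf_pos A _ (F.comb_ne_zero σ hv)

/-- the reflection commutes with the field -/
lemma refl'_comm : F.Comm (refl' A) := by
  intro x v
  rw [refl'_apply, refl'_apply, ← hod_comm (F.ρ x) (F.hρ x), map_sub, map_smul]

lemma hod_comm' : F.Comm (hod A) := fun x v => (hod_comm (F.ρ x) (F.hρ x) v).symm

lemma hh_one (σ : K →+* ℂ) : F.matAt σ (refl' A) * F.matAt σ (refl' A) = 1 := by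
  rw [← F.matAt_mul σ _ F.refl'_comm, ← F.matAt_one σ]
  congr 1
  exact LinearMap.ext fun v => refl'_refl' A v

/-- adjoints for the positive form and matrices -/
lemma HM_adj (σ : K →+* ℂ) {Y Y' : Module.End ℂ A.H1} (hY : F.Comm Y) (hY' : F.Comm Y')
    (h : ∀ u v, Hf A (Y u) v = Hf A u (Y' v)) :
    F.HM σ * F.matAt σ Y = (F.matAt σ Y').conjTranspose * F.HM σ := by
  have hadd : ∀ u v v', Hf A u (v + v') = Hf A u v + Hf A u v' := by
    intro u v v'
    rw [Hf_symm, Hf_add_left, map_add, ← Hf_symm, ← Hf_symm]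
  have hsmul : ∀ (c : ℂ) u v, Hf A u (c • v) = conj c * Hf A u v := by
    intro c u v
    rw [Hf_symm, Hf_smul_left, map_mul, ← Hf_symm]
  have hs1 : ∀ (f : Fin r → ℂ) v, Hf A (∑ c, f c • F.e σ c) v = ∑ c, f c * Hf A (F.e σ c) v := by
    intro f v
    have : ∀ s : Finset (Fin r), Hf A (∑ c ∈ s, f c • F.e σ c) v =
        ∑ c ∈ s, f c * Hf A (F.e σ c) v := by
      intro s
      induction s using Finset.induction_on with
      | empty =>
        rw [Finset.sum_empty, Finset.sum_empty]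
        have := Hf_smul_left A 0 0 v
        rwa [zero_smul, zero_mul] at this
      | insert a s ha ih => rw [Finset.sum_insert ha, Finset.sum_insert ha, Hf_add_left, ih,
          Hf_smul_left]
    exact this _
  have hs2 : ∀ (f : Fin r → ℂ) u, Hf A u (∑ c, f c • F.e σ c) =
      ∑ c, conj (f c) * Hf A u (F.e σ c) := by
    intro f u
    rw [Hf_symm, hs1, map_sum]
    refine Finset.sum_congr rfl fun c _ => ?_
    rw [map_mul, ← Hf_symm]
  ext a b
  have h1 := h (F.e σ b) (F.e σ a)
  rw [hY.act', hY'.act', hs1, hs2] at h1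
  rw [Matrix.mul_apply, Matrix.mul_apply]
  simp only [Matrix.conjTranspose_apply, HM_apply]
  calc ∑ c, Hf A (F.e σ c) (F.e σ a) * F.matAt σ Y c b
      = ∑ c, F.matAt σ Y c b * Hf A (F.e σ c) (F.e σ a) :=
        Finset.sum_congr rfl fun c _ => mul_comm _ _
    _ = _ := h1

lemma HM_refl' (σ : K →+* ℂ) : (F.matAt σ (refl' A)).conjTranspose * F.HM σ =
    F.HM σ * F.matAt σ (refl' A) :=
  (F.HM_adj σ F.refl'_comm F.refl'_comm (Hf_refl' A)).symm

/-- (B8) infinitesimal isometries respecting the real structure -/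
lemma HM_real (σ : K →+* ℂ) {X : Module.End ℂ A.H1} (hX : F.Comm X)
    (hr : ∀ v, cB (pData A) (X v) = X (cB (pData A) v))
    (hψ : ∀ u v, (pData A).ψ (X u) v + (pData A).ψ u (X v) = 0) :
    (F.matAt σ X).conjTranspose * F.HM σ =
      -(F.HM σ * (F.matAt σ (refl' A) * F.matAt σ X * F.matAt σ (refl' A))) := by
  have hh := F.refl'_comm
  have h1 : F.Comm (-(refl' A * X * refl' A)) := by
    intro x v
    rw [LinearMap.neg_apply, LinearMap.neg_apply, ((hh.mul hX).mul hh) x v, map_neg]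
  have hneg : ∀ u v, Hf A u (-v) = - Hf A u v := by
    intro u v
    unfold Hf
    rw [map_neg, cB_neg, map_neg]
  have h2 := F.HM_adj σ hX h1 (fun u v => by
    rw [Hf_adj A X hr hψ, LinearMap.neg_apply, hneg]
    rfl)
  rw [matAt_neg, F.matAt_mul σ _ hh, F.matAt_mul σ _ hX, Matrix.conjTranspose_neg] at h2
  have h3 := congrArg Matrix.conjTranspose h2
  rw [Matrix.conjTranspose_mul, Matrix.conjTranspose_mul, Matrix.conjTranspose_neg,
    Matrix.conjTranspose_conjTranspose, (F.HM_posDef σ).1, Matrix.mul_neg] at h3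
  exact h3

end av

end UF

end Pool.Agent.Helper7
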