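import Pool.Agent.Helper8.D.LinkDefs
import Pool.Agent.Helper28.GPC.PieceAct

/-!
Links between pieces and morphisms: linear maps between factors commuting with all symmetries are
combinations of de Rham-Betti morphisms; two places of type III whose halves are linked are equal
or conjugate; conjugate places are linked; links between places of real type are compatible with
every element commuting with the morphisms.
-/

namespace Pool.Agent.Helper20

open Module NumberField Matrix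
open Pool.Agent.Helper7 Pool.Agent.Helper8.D Pool.Agent.Helper36 Pool.Agent.Helper24
open Pool.Agent.Helper28.GPC
open Pool.Agent.GPC (Emb)

set_option linter.unusedSectionVars false

lemma sq_conj (A B J J' : Matrix (Fin 4) (Fin 4) ℂ) (hl : J' * J = 1) (hr : J * J' = 1)
    (h : B * J = J * A) : (∃ c : ℂ, A * A = c • 1) ↔ (∃ c : ℂ, B * B = c • 1) := by
  have hB : B = J * A * J' := by
    rw [← h, mul_assoc, hr, mul_one]
  have hA : A = J' * B * J := by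
    rw [mul_assoc, h, ← mul_assoc, hl, one_mul]
  constructor
  · rintro ⟨c, hc⟩
    refine ⟨c, ?_⟩
    calc B * B = J * A * (J' * J) * A * J' := by
          rw [hB]; simp only [mul_assoc]
      _ = J * (A * A) * J' := by rw [hl]; simp only [mul_assoc, one_mul]
      _ = c • 1 := by rw [hc, Matrix.mul_smul, Matrix.smul_mul, mul_one, hr]
  · rintro ⟨c, hc⟩
    refine ⟨c, ?_⟩
    calc A * A = J' * B * (J * J') * B * J := by
          rw [hA]; simp only [mul_assoc]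
      _ = J' * (B * B) * J := by rw [hr]; simp only [mul_assoc, one_mul]
      _ = c • 1 := by rw [hc, Matrix.mul_smul, Matrix.smul_mul, mul_one, hl]

section family

variable {I : Type} [Fintype I] [DecidableEq I] (n : I → ℕ)
  {κ : I → Type} [∀ i, Fintype (κ i)] [∀ i, DecidableEq (κ i)] {ϖ : ℂ}
  (P : ∀ i, PData (κ i) ϖ)
  {K : I → Type} [∀ i, Field (K i)] [∀ i, NumberField (K i)]
  {k : ℕ} (α : MultilinearMap ℂ (fun _ : Fin (2 * k) => HW κ n) ℂ)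
  (F : ∀ i, Fac3 (P i) (K i))
  (hϖ : ϖ ≠ 0)
  (hB : ∀ v : Fin (2 * k) → HW κ n, (∀ r, IsRatP n P (v r)) → ∃ q : ℚ, α v = ϖ ^ k * q)
  (hA : ∀ v : Fin (2 * k) → HW κ n, (∀ r i m j, IsAlgebraic ℚ (v r i m j)) →
      IsAlgebraic ℚ (α v))

include hϖ hB hA in
/-- (F3.0): a linear map commuting with all the symmetries is a combination of morphisms -/
theorem comb_of_comm (i j : I) (f : (κ i → ℂ) →ₗ[ℂ] (κ j → ℂ))
    (hf : ∀ X, IsInv n P α X → ∀ v, X.1 j (f v) = f (X.1 i v)) :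
    ∃ (m : ℕ) (c : Fin m → ℂ) (g : Fin m → ((κ i → ℂ) →ₗ[ℂ] (κ j → ℂ))),
      (∀ l, IsDRB (P i) (P j) (g l)) ∧ ∀ v, f v = ∑ l, c l • g l v := by
  obtain ⟨m, c, g, hg, h⟩ := bilin_of_inv n P α hϖ hB hA i j ((P j).ψ ∘ₗ f) (by
    intro X hX u v
    rw [LinearMap.comp_apply, LinearMap.comp_apply, ← hf X hX]
    exact hX.pol j (f u) v)
  refine ⟨m, c, g, hg, fun v => ?_⟩
  rw [← sub_eq_zero]
  apply (P j).hψnd
  intro w
  rw [map_sub, LinearMap.sub_apply, sub_eq_zero]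
  have h1 := h v w
  rw [LinearMap.comp_apply] at h1
  rw [h1, map_sum, LinearMap.sum_apply]
  refine Finset.sum_congr rfl fun l _ => ?_
  rw [map_smul, LinearMap.smul_apply, smul_eq_mul]

/-- the linear map between two factors given by a matrix from a place to a place -/
noncomputable def mapR {i j : I} {r r' : ℕ} (F₁ : UF (P i) (K i) r) (F₂ : UF (P j) (K j) r')
    (σ : K i →+* ℂ) (τ : K j →+* ℂ) (R : Matrix (Fin r') (Fin r) ℂ) :
    (κ i → ℂ) →ₗ[ℂ] (κ j → ℂ) :=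
  open Classical in
  F₁.eb.constr ℂ (fun t => if t.1 = σ then ∑ a, R a t.2 • F₂.e τ a else 0)

lemma mapR_e {i j : I} {r r' : ℕ} (F₁ : UF (P i) (K i) r) (F₂ : UF (P j) (K j) r')
    (σ : K i →+* ℂ) (τ : K j →+* ℂ) (R : Matrix (Fin r') (Fin r) ℂ) (b : Fin r) :
    mapR P F₁ F₂ σ τ R (F₁.e σ b) = ∑ a, R a b • F₂.e τ a := by
  classical
  rw [mapR, UF.e, Basis.constr_basis, if_pos rfl]

lemma mapR_e' {i j : I} {r r' : ℕ} (F₁ : UF (P i) (K i) r) (F₂ : UF (P j) (K j) r')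
    (σ : K i →+* ℂ) (τ : K j →+* ℂ) (R : Matrix (Fin r') (Fin r) ℂ) {σ' : K i →+* ℂ}
    (h : σ' ≠ σ) (b : Fin r) : mapR P F₁ F₂ σ τ R (F₁.e σ' b) = 0 := by
  classical
  rw [mapR, UF.e, Basis.constr_basis, if_neg h]

lemma mapR_co {i j : I} {r r' : ℕ} (F₁ : UF (P i) (K i) r) (F₂ : UF (P j) (K j) r')
    (σ : K i →+* ℂ) (τ : K j →+* ℂ) (R : Matrix (Fin r') (Fin r) ℂ) (a : Fin r') (b : Fin r) :
    F₂.co τ a (mapR P F₁ F₂ σ τ R (F₁.e σ b)) = R a b := by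
  rw [mapR_e, map_sum, Finset.sum_eq_single a]
  · rw [map_smul, co_e_same, if_pos rfl, smul_eq_mul, mul_one]
  · intro c _ hc
    rw [map_smul, co_e_same, if_neg (Ne.symm hc), smul_zero]
  · intro h; exact absurd (Finset.mem_univ _) h

/-- the action of an endomorphism before and after the linear map given by a matrix -/
lemma mapR_left {i j : I} {r r' : ℕ} (F₁ : UF (P i) (K i) r) (F₂ : UF (P j) (K j) r')
    (σ : K i →+* ℂ) (τ : K j →+* ℂ) (R : Matrix (Fin r') (Fin r) ℂ)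
    (Y : Module.End ℂ (κ j → ℂ)) (hY : F₂.Comm Y) (b : Fin r) :
    Y (mapR P F₁ F₂ σ τ R (F₁.e σ b)) = mapR P F₁ F₂ σ τ (ent F₂ τ Y * R) (F₁.e σ b) := by
  rw [mapR_e, mapR_e, map_sum]
  simp only [map_smul, ent_act F₂ τ Y hY, Finset.smul_sum, smul_smul]
  rw [Finset.sum_comm]
  refine Finset.sum_congr rfl fun a _ => ?_
  rw [← Finset.sum_smul, Matrix.mul_apply]
  congr 1
  exact Finset.sum_congr rfl fun d _ => mul_comm _ _

lemma mapR_right {i j : I} {r r' : ℕ} (F₁ : UF (P i) (K i) r) (F₂ : UF (P j) (K j) r')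
    (σ : K i →+* ℂ) (τ : K j →+* ℂ) (R : Matrix (Fin r') (Fin r) ℂ)
    (Y : Module.End ℂ (κ i → ℂ)) (hY : F₁.Comm Y) (b : Fin r) :
    mapR P F₁ F₂ σ τ R (Y (F₁.e σ b)) = mapR P F₁ F₂ σ τ (R * ent F₁ σ Y) (F₁.e σ b) := by
  rw [mapR_e, ent_act F₁ σ Y hY, map_sum]
  simp only [map_smul, mapR_e, Finset.smul_sum, smul_smul]
  rw [Finset.sum_comm]
  refine Finset.sum_congr rfl fun a _ => ?_
  rw [← Finset.sum_smul, Matrix.mul_apply]
  congr 1
  exact Finset.sum_congr rfl fun d _ => mul_comm _ _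

lemma mapR_right' {i j : I} {r r' : ℕ} (F₁ : UF (P i) (K i) r) (F₂ : UF (P j) (K j) r')
    (σ : K i →+* ℂ) (τ : K j →+* ℂ) (R : Matrix (Fin r') (Fin r) ℂ)
    (Y : Module.End ℂ (κ i → ℂ)) (hY : F₁.Comm Y) {σ' : K i →+* ℂ} (h : σ' ≠ σ) (b : Fin r) :
    mapR P F₁ F₂ σ τ R (Y (F₁.e σ' b)) = 0 := by
  rw [ent_act F₁ σ' Y hY, map_sum]
  refine Finset.sum_eq_zero fun a _ => ?_
  rw [map_smul, mapR_e' P F₁ F₂ σ τ R h, smul_zero]

/-- a matrix intertwining the symmetries gives a linear map commuting with the symmetries -/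
lemma mapR_comm {i j : I} {r r' : ℕ} (F₁ : UF (P i) (K i) r) (F₂ : UF (P j) (K j) r')
    (σ : K i →+* ℂ) (τ : K j →+* ℂ) (R : Matrix (Fin r') (Fin r) ℂ)
    (hR : ∀ X, IsInv n P α X → ent F₂ τ (X.1 j) * R = R * ent F₁ σ (X.1 i))
    (X : GG κ) (hX : IsInv n P α X) (v : κ i → ℂ) :
    X.1 j (mapR P F₁ F₂ σ τ R v) = mapR P F₁ F₂ σ τ R (X.1 i v) := by
  refine F₁.ext_e ((X.1 j) ∘ₗ mapR P F₁ F₂ σ τ R) (mapR P F₁ F₂ σ τ R ∘ₗ (X.1 i))
    (fun σ' b => ?_) v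
  rw [LinearMap.comp_apply, LinearMap.comp_apply]
  by_cases h : σ' = σ
  · subst h
    rw [mapR_left P F₁ F₂ σ' τ R _ ((symI n P α hX j).commF F₂),
      mapR_right P F₁ F₂ σ' τ R _ ((symI n P α hX i).commF F₁), hR X hX]
  · rw [mapR_e' P F₁ F₂ σ τ R h, map_zero,
      mapR_right' P F₁ F₂ σ τ R _ ((symI n P α hX i).commF F₁) h]

include hϖ hB hA in
/-- a matrix intertwining the symmetries intertwines every family of endomorphisms which commutes
with all the morphisms -/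
theorem mapR_all {i j : I} {r r' : ℕ} (F₁ : UF (P i) (K i) r) (F₂ : UF (P j) (K j) r')
    (σ : K i →+* ℂ) (τ : K j →+* ℂ) (R : Matrix (Fin r') (Fin r) ℂ)
    (hR : ∀ X, IsInv n P α X → ent F₂ τ (X.1 j) * R = R * ent F₁ σ (X.1 i))
    (h : ∀ i, Module.End ℂ (κ i → ℂ))
    (hcomm : ∀ (i j : I) (f : (κ i → ℂ) →ₗ[ℂ] (κ j → ℂ)), IsDRB (P i) (P j) f →
      ∀ v, h j (f v) = f (h i v)) :
    ent F₂ τ (h j) * R = R * ent F₁ σ (h i) := by
  obtain ⟨m, c, g, hg, hs⟩ := comb_of_comm n P α hϖ hB hA i j (mapR P F₁ F₂ σ τ R)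
    (mapR_comm n P α F₁ F₂ σ τ R hR)
  have h1 : ∀ v, h j (mapR P F₁ F₂ σ τ R v) = mapR P F₁ F₂ σ τ R (h i v) := by
    intro v
    rw [hs, hs, map_sum]
    refine Finset.sum_congr rfl fun l _ => ?_
    rw [map_smul, hcomm i j (g l) (hg l)]
  have hc1 : F₁.Comm (h i) := fun x v => hcomm i i _ (F₁.hρ x) v
  have hc2 : F₂.Comm (h j) := fun x v => hcomm j j _ (F₂.hρ x) v
  ext a b
  rw [← mapR_co P F₁ F₂ σ τ (ent F₂ τ (h j) * R) a b,
    ← mapR_co P F₁ F₂ σ τ (R * ent F₁ σ (h i)) a b,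
    ← mapR_left P F₁ F₂ σ τ R _ hc2, ← mapR_right P F₁ F₂ σ τ R _ hc1, h1]

include hϖ hB hA in
/-- (F3s): links between places of real type are compatible with every family of endomorphisms
commuting with the morphisms -/
theorem link_S {t t' : Emb K × Fin 2} (ht : (F t.1.1).isS) (ht' : (F t'.1.1).isS)
    (Q : Matrix (Fin 2) (Fin 2) ℂ)
    (hQ : ∀ X, IsInv n P α X → AA P F t.1 t.2 X * Q = Q * AA P F t'.1 t'.2 X)
    (h : GG κ)
    (hcomm : ∀ (i j : I) (f : (κ i → ℂ) →ₗ[ℂ] (κ j → ℂ)), IsDRB (P i) (P j) f →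
      ∀ v, h.1 j (f v) = f (h.1 i v)) :
    AA P F t.1 t.2 h * Q = Q * AA P F t'.1 t'.2 h := by
  obtain ⟨F', h', hF'⟩ := exists_S P F ht
  obtain ⟨F'', h'', hF''⟩ := exists_S P F ht'
  have e1 : ∀ X, AA P F t.1 t.2 X = ent F' t.1.2 (X.1 t.1.1) := fun X => AA_S P F hF' t.2 X
  have e2 : ∀ X, AA P F t'.1 t'.2 X = ent F'' t'.1.2 (X.1 t'.1.1) := fun X => AA_S P F hF'' t'.2 X
  simp only [e1, e2] at hQ ⊢
  exact mapR_all n P α hϖ hB hA F'' F' t'.1.2 t.1.2 Q hQ h.1 hcomm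

include hϖ hB hA in
/-- a nonzero matrix intertwining the symmetries gives a morphism with a nonzero entry -/
lemma exists_entry {i j : I} {r r' : ℕ} (F₁ : UF (P i) (K i) r) (F₂ : UF (P j) (K j) r')
    (σ : K i →+* ℂ) (τ : K j →+* ℂ) (R : Matrix (Fin r') (Fin r) ℂ)
    (hR : ∀ X, IsInv n P α X → ent F₂ τ (X.1 j) * R = R * ent F₁ σ (X.1 i)) (hne : R ≠ 0) :
    ∃ g : (κ i → ℂ) →ₗ[ℂ] (κ j → ℂ), IsDRB (P i) (P j) g ∧
      ∃ a b, F₂.co τ a (g (F₁.e σ b)) ≠ 0 := by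
  obtain ⟨m, c, g, hg, hsum⟩ := comb_of_comm n P α hϖ hB hA i j (mapR P F₁ F₂ σ τ R)
    (mapR_comm n P α F₁ F₂ σ τ R hR)
  obtain ⟨a, b, hab⟩ : ∃ a b, R a b ≠ 0 := by
    by_contra hcon
    push Not at hcon
    exact hne (by ext a b; exact hcon a b)
  rw [← mapR_co P F₁ F₂ σ τ R a b] at hab
  obtain ⟨l, hl⟩ : ∃ l, F₂.co τ a (g l (F₁.e σ b)) ≠ 0 := by
    by_contra hcon
    push Not at hcon
    apply hab
    rw [hsum, map_sum]
    refine Finset.sum_eq_zero fun l _ => ?_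
    rw [map_smul, hcon l, smul_zero]
  exact ⟨g l, hg l, a, b, hl⟩

/-- endomorphisms of a factor of type III map an eigenspace into the sum of this eigenspace and
the conjugate one -/
lemma co_end {κ : Type} [Fintype κ] [DecidableEq κ] {ϖ : ℂ} {P : PData κ ϖ} {K : Type} [Field K]
    [NumberField K] {r : ℕ} (F' : QF P K r) (g : Module.End ℂ (κ → ℂ)) (hg : IsDRB P P g)
    (σ σ' : K →+* ℂ) (h2 : σ' ≠ σ) (h3 : σ' ≠ ComplexEmbedding.conjugate σ) (a b : Fin r) :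
    F'.co σ' a (g (F'.e σ b)) = 0 := by
  classical
  obtain ⟨x, y, hxy⟩ := F'.hend g hg
  rw [hxy]
  have e3 : ∀ v, F'.co σ' a v = F'.co σ' a (proj F'.ρ σ' v) := by
    intro v
    rw [F'.proj_eq, map_sum, Finset.sum_eq_single a]
    · rw [map_smul, co_e_same, if_pos rfl, smul_eq_mul, mul_one]
    · intro c _ hc
      rw [map_smul, co_e_same, if_neg (Ne.symm hc), smul_zero]
    · intro h; exact absurd (Finset.mem_univ _) h
  have e4 : F'.j (F'.e σ b) = proj F'.ρ (ComplexEmbedding.conjugate σ) (F'.j (F'.e σ b)) := by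
    rw [← F'.j_proj, F'.toUF.proj_e, if_pos rfl]
  rw [e3, map_add, F'.toUF.proj_rho, F'.toUF.proj_rho, F'.toUF.proj_e, if_neg h2, smul_zero,
    zero_add, e4, ← Module.End.mul_apply, proj_mul_proj, if_neg h3, LinearMap.zero_apply,
    smul_zero, map_zero]

include hϖ hB hA in
/-- links of the two halves of places of type III give an invertible matrix intertwining the
symmetries -/
lemma exists_inter (s s' : Emb K) {F' : QF (P s.1) (K s.1) 4} {F'' : QF (P s'.1) (K s'.1) 4}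
    (hF' : F s.1 = .Q F') (hF'' : F s'.1 = .Q F'')
    (π : Equiv.Perm (Fin 2)) (h : ∀ ε, Lk n P α F (s, ε) (s', π ε)) :
    ∃ R : Matrix (Fin 4) (Fin 4) ℂ, R ≠ 0 ∧ ∀ X, IsInv n P α X →
      ent F''.toUF s'.2 (X.1 s'.1) * R = R * ent F'.toUF s.2 (X.1 s.1) := by
  have e1 : ∀ ε X, AA P F s ε X = (F'.sp s.2).a ε (ent F'.toUF s.2 (X.1 s.1), X.2) :=
    fun ε X => AA_Q P F hF' ε X
  have e2 : ∀ ε X, AA P F s' ε X = (F''.sp s'.2).a ε (ent F''.toUF s'.2 (X.1 s'.1), X.2) :=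
    fun ε X => AA_Q P F hF'' ε X
  have h1 : ∀ ε, ∃ Q : Matrix (Fin 2) (Fin 2) ℂ, Q.det ≠ 0 ∧ ∀ X, IsInv n P α X →
      AA P F s ε X * Q = Q * AA P F s' (π ε) X := fun ε => by
    have h2 := (lk_iff n P α F (s, ε) (s', π ε)).mp (h ε)
    exact h2
  choose Q hQ hQ' using h1
  obtain ⟨B, hBd⟩ : ∃ B : {X : GG κ // IsInv n P α X} → Matrix (Fin 4) (Fin 4) ℂ,
    B = fun X => ent F'.toUF s.2 (X.1.1 s.1) := ⟨_, rfl⟩
  obtain ⟨B', hBd'⟩ : ∃ B' : {X : GG κ // IsInv n P α X} → Matrix (Fin 4) (Fin 4) ℂ,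
    B' = fun X => ent F''.toUF s'.2 (X.1.1 s'.1) := ⟨_, rfl⟩
  obtain ⟨c, hcd⟩ : ∃ c : {X : GG κ // IsInv n P α X} → ℂ, c = fun X => X.1.2 := ⟨_, rfl⟩
  have g1 : ∀ X, GSO (F'.sf s.2) (B X) (c X) := by
    intro X
    rw [hBd, hcd]
    exact F'.gso s.2 (symI n P α X.2 s.1)
  have g2 : ∀ X, GSO (F''.sf s'.2) (B' X) (c X) := by
    intro X
    rw [hBd', hcd]
    exact F''.gso s'.2 (symI n P α X.2 s'.1)
  have g3 : ∀ ε X, (F'.sp s.2).a ε (B X, c X) * Q ε = Q ε * (F''.sp s'.2).a (π ε) (B' X, c X) := by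
    intro ε X
    rw [hBd, hBd', hcd]
    have := hQ' ε X.1 X.2
    rwa [e1, e2] at this
  obtain ⟨R, hR, hR'⟩ := intertwine (F'.sp s.2) (F''.sp s'.2) B B' c g1 g2 π Q hQ g3
  rw [hBd, hBd'] at hR'
  have hu : IsUnit R.det := isUnit_iff_ne_zero.mpr hR
  refine ⟨R⁻¹, ?_, ?_⟩
  · intro h0
    have h2 := Matrix.mul_nonsing_inv _ hu
    rw [h0, mul_zero] at h2
    exact zero_ne_one h2
  · intro X hX
    have h2 := hR' ⟨X, hX⟩
    calc ent F''.toUF s'.2 (X.1 s'.1) * R⁻¹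
        = R⁻¹ * (R * ent F''.toUF s'.2 (X.1 s'.1)) * R⁻¹ := by
          rw [← mul_assoc, Matrix.nonsing_inv_mul _ hu, one_mul]
      _ = R⁻¹ * ent F'.toUF s.2 (X.1 s.1) := by
          rw [← h2, mul_assoc, mul_assoc, Matrix.mul_nonsing_inv _ hu, mul_one]

include hϖ hB hA in
/-- (F3): two places of type III whose halves are linked are equal or conjugate -/
theorem same_place (s s' : Emb K) (hs : (F s.1).isQ) (hs' : (F s'.1).isQ)
    (hHom : s.1 ≠ s'.1 → ∀ g : (κ s.1 → ℂ) →ₗ[ℂ] (κ s'.1 → ℂ), IsDRB (P s.1) (P s'.1) g → g = 0)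
    (π : Equiv.Perm (Fin 2)) (h : ∀ ε, Lk n P α F (s, ε) (s', π ε)) : s' = s ∨ s' = conjT s := by
  by_cases hss : s.1 = s'.1
  · obtain ⟨i, σ⟩ := s
    obtain ⟨i', σ'⟩ := s'
    change i = i' at hss
    subst hss
    obtain ⟨F', hF'⟩ := exists_Q P F hs
    obtain ⟨R, hne, hR⟩ := exists_inter n P α F hϖ hB hA ⟨i, σ⟩ ⟨i, σ'⟩ hF' hF' π h
    obtain ⟨g, hg, a, b, hl⟩ := exists_entry n P α hϖ hB hA F'.toUF F'.toUF σ σ' R hR hne
    by_contra hcon
    push Not at hcon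
    obtain ⟨h2, h3⟩ := hcon
    exact hl (co_end F' g hg σ σ' (fun h => h2 (by rw [h])) (fun h => h3 (by rw [h]; rfl)) a b)
  · exfalso
    obtain ⟨F', hF'⟩ := exists_Q P F hs
    obtain ⟨F'', hF''⟩ := exists_Q P F hs'
    obtain ⟨R, hne, hR⟩ := exists_inter n P α F hϖ hB hA s s' hF' hF'' π h
    obtain ⟨g, hg, a, b, hl⟩ := exists_entry n P α hϖ hB hA F'.toUF F''.toUF s.2 s'.2 R hR hne
    rw [hHom hss g hg, LinearMap.zero_apply, map_zero] at hl
    exact hl rfl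

include hϖ hB hA in
/-- (F3c): the halves of conjugate places of type III are linked -/
theorem lk_conj (s : Emb K) (hs : (F s.1).isQ) :
    ∃ π : Equiv.Perm (Fin 2), ∀ ε, Lk n P α F (s, ε) (conjT s, π ε) := by
  classical
  obtain ⟨F', hF'⟩ := exists_Q P F hs
  obtain ⟨i, σ⟩ := s
  simp only at F' hF'
  -- the matrix of `j`
  let J : (K i →+* ℂ) → Matrix (Fin 4) (Fin 4) ℂ := fun τ =>
    Matrix.of fun a b => F'.co (ComplexEmbedding.conjugate τ) a (F'.j (F'.e τ b))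
  have hJ : ∀ τ b, F'.j (F'.e τ b) = ∑ a, J τ a b • F'.e (ComplexEmbedding.conjugate τ) a := by
    intro τ b
    have e4 : F'.j (F'.e τ b) = proj F'.ρ (ComplexEmbedding.conjugate τ) (F'.j (F'.e τ b)) := by
      rw [← F'.j_proj, F'.toUF.proj_e, if_pos rfl]
    conv_lhs => rw [e4, F'.proj_eq]
    rfl
  have hcoe : ∀ (τ : K i →+* ℂ) (w : Fin 4 → ℂ) a, F'.co τ a (∑ b, w b • F'.e τ b) = w a := by
    intro τ w a
    rw [map_sum, Finset.sum_eq_single a]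
    · rw [map_smul, co_e_same, if_pos rfl, smul_eq_mul, mul_one]
    · intro c _ hc
      rw [map_smul, co_e_same, if_neg (Ne.symm hc), smul_zero]
    · intro h; exact absurd (Finset.mem_univ _) h
  have hJJ : J (ComplexEmbedding.conjugate σ) * J σ = σ F'.b • 1 := by
    ext a b
    have h1 := F'.jj (F'.e σ b)
    rw [hJ, map_sum] at h1
    simp only [map_smul, hJ, Finset.smul_sum, smul_smul] at h1
    rw [Finset.sum_comm, Pool.Agent.Helper24.conj_conj, F'.toUF.rho_e] at h1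
    simp only [← Finset.sum_smul] at h1
    have h2 := congrArg (F'.co σ a) h1
    rw [hcoe σ (fun x => ∑ y, J σ y b * J (ComplexEmbedding.conjugate σ) x y) a, map_smul,
      co_e_same] at h2
    rw [Matrix.mul_apply, Matrix.smul_apply, Matrix.one_apply, ← h2]
    exact Finset.sum_congr rfl fun d _ => mul_comm _ _
  have hb : σ F'.b ≠ 0 := (map_ne_zero σ).mpr F'.b_ne
  have hcomm : ∀ X, IsInv n P α X → ent F'.toUF (ComplexEmbedding.conjugate σ) (X.1 i) * J σ =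
      J σ * ent F'.toUF σ (X.1 i) := by
    intro X hX
    have hX' := symI n P α hX i
    ext a b
    have h1 := hX'.comm F'.j F'.hj (F'.e σ b)
    rw [hJ, map_sum, ent_act F'.toUF σ _ (hX'.commF F'.toUF), map_sum] at h1
    simp only [map_smul, hJ, ent_act F'.toUF _ _ (hX'.commF F'.toUF), Finset.smul_sum,
      smul_smul] at h1
    rw [Finset.sum_comm] at h1
    conv_rhs at h1 => rw [Finset.sum_comm]
    simp only [← Finset.sum_smul] at h1
    have h2 := congrArg (F'.co (ComplexEmbedding.conjugate σ) a) h1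
    rw [hcoe _ (fun x => ∑ y, J σ y b * ent F'.toUF (ComplexEmbedding.conjugate σ) (X.1 i) x y),
      hcoe _ (fun x => ∑ y, ent F'.toUF σ (X.1 i) y b * J σ x y)] at h2
    rw [Matrix.mul_apply, Matrix.mul_apply]
    calc _ = ∑ y, J σ y b * ent F'.toUF (ComplexEmbedding.conjugate σ) (X.1 i) a y :=
          Finset.sum_congr rfl fun d _ => mul_comm _ _
      _ = _ := h2
      _ = _ := Finset.sum_congr rfl fun d _ => mul_comm _ _
  obtain ⟨J₀, hJ₀⟩ : ∃ J₀, J₀ = J σ := ⟨_, rfl⟩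
  obtain ⟨J₁, hJ₁⟩ : ∃ J₁, J₁ = (σ F'.b)⁻¹ • J (ComplexEmbedding.conjugate σ) := ⟨_, rfl⟩
  have hl : J₁ * J₀ = 1 := by
    rw [hJ₁, hJ₀, Matrix.smul_mul, hJJ, smul_smul, inv_mul_cancel₀ hb, one_smul]
  have hr : J₀ * J₁ = 1 := mul_eq_one_comm.mp hl
  rw [← hJ₀] at hcomm
  have hsq : ∀ X, IsInv n P α X → X.2 = 0 →
      ((AA P F ⟨i, σ⟩ 0 X = 0 ∨ AA P F ⟨i, σ⟩ 1 X = 0) ↔
        (AA P F ⟨i, ComplexEmbedding.conjugate σ⟩ 0 X = 0 ∨
          AA P F ⟨i, ComplexEmbedding.conjugate σ⟩ 1 X = 0)) := by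
    intro X hX hX2
    have g : ∀ τ, GSO (F'.sf τ) (ent F'.toUF τ (X.1 i)) 0 := by
      intro τ
      have := F'.gso τ (symI n P α hX i)
      rwa [hX2] at this
    rw [AA_Q' P F hF', AA_Q' P F hF', AA_Q' P F hF', AA_Q' P F hF', hX2,
      ← sq_scalar_iff (F'.sp σ) (g σ), ← sq_scalar_iff (F'.sp (ComplexEmbedding.conjugate σ)) (g _)]
    have h1 := hcomm X hX
    exact sq_conj _ _ _ _ hl hr h1
  have h1 : ∀ (s : Emb K) ε X, X ∈ kerP n P α F 1 s ε ↔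
      IsInv n P α X ∧ X.2 = 0 ∧ AA P F s ε X = 0 := by
    intro s ε X
    show (IsInv n P α X ∧ X.2 = 0 ∧ AA P F (actT 1 s) ε (tw P 1 X) = 0) ↔ _
    rw [tw_one, actT_one]
  have hk : ∀ (s : Emb K), (F s.1).isQ → ¬ kerP n P α F 1 s 0 ≤ kerP n P α F 1 s 1 ∧
      ¬ kerP n P α F 1 s 1 ≤ kerP n P α F 1 s 0 := by
    intro s hs
    constructor
    · intro h
      obtain ⟨X, hX, hX2, e1, e2⟩ := exists_half n P α F hϖ hB hA hs 0
      exact e2 ((h1 s 1 X).mp (h ((h1 s 0 X).mpr ⟨hX, hX2, e1⟩))).2.2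
    · intro h
      obtain ⟨X, hX, hX2, e1, e2⟩ := exists_half n P α F hϖ hB hA hs 1
      exact e2 ((h1 s 0 X).mp (h ((h1 s 1 X).mpr ⟨hX, hX2, e1⟩))).2.2
  obtain ⟨π, hπ⟩ := exists_perm (kerP n P α F 1 ⟨i, σ⟩)
    (kerP n P α F 1 ⟨i, ComplexEmbedding.conjugate σ⟩) (by
      intro X
      rw [h1, h1, h1, h1, ← and_or_left, ← and_or_left, ← and_or_left, ← and_or_left]
      exact and_congr_right fun hX => and_congr_right fun hX2 => hsq X hX hX2)
    (hk _ hs) (hk _ hs)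
  refine ⟨π, fun ε => ?_⟩
  refine (lk_iff_ker n P α F hϖ hB hA (t := (⟨i, σ⟩, ε))
    (t' := (⟨i, ComplexEmbedding.conjugate σ⟩, π ε)) (Or.inr hs) (Or.inr hs)).mpr ?_
  intro X hX hX2 h0
  have h3 : X ∈ kerP n P α F 1 ⟨i, ComplexEmbedding.conjugate σ⟩ (π ε) := by
    rw [hπ, h1]
    exact ⟨hX, hX2, h0⟩
  exact ((h1 _ _ _).mp h3).2.2

end family

end Pool.Agent.Helper20
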