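import Mathlib
import Pool.Agent.Helper20.TwinIndex

set_option autoImplicit false

namespace Pool.Agent.Results.MP_04e9b2_nt.NecessaryCounts

open Pool.Agent.Helper20.TwinIndex Finset

/-- If the representable numbers have positive lower density (in particular if every `n > 2` is
representable), then there are at least `c log x` super twin primes and at least `c √x / log x`
twin primes up to `x`. -/
theorem result :
    (∀ (δ : ℝ) (N₀ : ℕ), 0 < δ → (∀ N : ℕ, N₀ ≤ N → δ * N ≤ (repCount N N : ℝ)) →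
      ∃ c : ℝ, 0 < c ∧ ∀ x : ℕ, 3 ≤ x →
        c * Real.log x ≤ superCount x ∧ c * √(x : ℝ) / Real.log x ≤ twinCount x) ∧
    ((∀ n : ℕ, 2 < n → ∃ k m, Dec n k m) →
      ∀ N : ℕ, 3 ≤ N → (1 / 3 : ℝ) * N ≤ (repCount N N : ℝ)) := by
  refine ⟨fun δ N₀ hδ h => necessary δ hδ N₀ h, fun h => ?_⟩
  classical
  intro N hN
  have h1 : Icc 3 N ⊆ (Icc 1 N).filter (fun n => ∃ k m, m ≤ N ∧ Dec n k m) := by
    intro n hn
    simp only [mem_filter, mem_Icc] at hn ⊢
    obtain ⟨k, m, hd⟩ := h n (by omega)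
    refine ⟨⟨by omega, hn.2⟩, k, m, ?_, hd⟩
    have := hd.2.2.1
    omega
  have h2 := Finset.card_le_card h1
  rw [Nat.card_Icc] at h2
  have h3 : ((N + 1 - 3 : ℕ) : ℝ) ≤ repCount N N := by exact_mod_cast h2
  rw [Nat.cast_sub (by omega)] at h3
  push_cast at h3
  have h4 : (3 : ℝ) ≤ N := by exact_mod_cast hN
  linarith

end Pool.Agent.Results.MP_04e9b2_nt.NecessaryCounts
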