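import Mathlib

/-!
Concentration for predictable transforms of a sequence of independent events.
-/

set_option autoImplicit false

namespace Pool.Agent.Helper20

open MeasureTheory ProbabilityTheory Filter Finset
open scoped Topology ENNReal

/-- the history of a set of naturals below `s` -/
noncomputable def hist (S : Set ℕ) (s : ℕ) : Finset ℕ := by
  classical exact (range s).filter (· ∈ S)

lemma mem_hist {S : Set ℕ} {s t : ℕ} : t ∈ hist S s ↔ t < s ∧ t ∈ S := by
  classical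
  unfold hist
  simp

/-- weight of a history under independent events of probabilities `ρ` -/
noncomputable def wt (ρ : ℕ → ℝ) (T : ℕ) (H : Finset ℕ) : ℝ :=
  ∏ s ∈ range T, if s ∈ H then ρ s else 1 - ρ s

/-- the predictable transform, evaluated at a history -/
noncomputable def ptr (ρ : ℕ → ℝ) (h : ℕ → Finset ℕ → ℝ) (T : ℕ) (H : Finset ℕ) : ℝ :=
  ∑ s ∈ range T, h s (H.filter (· < s)) * ((if s ∈ H then (1 : ℝ) else 0) - ρ s)

lemma wt_succ_notMem (ρ : ℕ → ℝ) (T : ℕ) {H : Finset ℕ} (hH : H ⊆ range T) :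
    wt ρ (T + 1) H = wt ρ T H * (1 - ρ T) := by
  unfold wt
  rw [prod_range_succ]
  have : T ∉ H := fun h => by simpa using hH h
  simp [this]

lemma wt_succ_insert (ρ : ℕ → ℝ) (T : ℕ) {H : Finset ℕ} (_hH : H ⊆ range T) :
    wt ρ (T + 1) (insert T H) = wt ρ T H * ρ T := by
  unfold wt
  rw [prod_range_succ]
  congr 1
  · refine prod_congr rfl fun s hs => ?_
    have : s ≠ T := by rw [mem_range] at hs; omega
    simp [this]
  · simp

lemma filter_lt_insert {T : ℕ} {H : Finset ℕ} {s : ℕ} (hs : s ≤ T) :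
    (insert T H).filter (· < s) = H.filter (· < s) := by
  ext x
  simp only [mem_filter, mem_insert]
  constructor
  · rintro ⟨rfl | h, h2⟩
    · omega
    · exact ⟨h, h2⟩
  · rintro ⟨h, h2⟩
    exact ⟨Or.inr h, h2⟩

lemma filter_lt_self {T : ℕ} {H : Finset ℕ} (hH : H ⊆ range T) :
    H.filter (· < T) = H := by
  ext x
  simp only [mem_filter, and_iff_left_iff_imp]
  intro hx
  simpa using hH hx

lemma ptr_succ_notMem (ρ : ℕ → ℝ) (h : ℕ → Finset ℕ → ℝ) (T : ℕ) {H : Finset ℕ}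
    (hH : H ⊆ range T) : ptr ρ h (T + 1) H = ptr ρ h T H + h T H * (0 - ρ T) := by
  unfold ptr
  rw [sum_range_succ, filter_lt_self hH]
  have : T ∉ H := fun h => by simpa using hH h
  simp [this]

lemma ptr_succ_insert (ρ : ℕ → ℝ) (h : ℕ → Finset ℕ → ℝ) (T : ℕ) {H : Finset ℕ}
    (hH : H ⊆ range T) :
    ptr ρ h (T + 1) (insert T H) = ptr ρ h T H + h T H * (1 - ρ T) := by
  unfold ptr
  rw [sum_range_succ, filter_lt_insert le_rfl, filter_lt_self hH]
  congr 1
  · refine sum_congr rfl fun s hs => ?_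
    have h1 : s < T := by rwa [mem_range] at hs
    have h2 : s ≠ T := by omega
    rw [filter_lt_insert h1.le]
    simp [h2]
  · simp

lemma one_step {r x l : ℝ} (hr0 : 0 ≤ r) (hr1 : r ≤ 1) (hx : |x| ≤ 1) (hl : |l| ≤ 1) :
    (1 - r) * Real.exp (l * (x * (0 - r))) + r * Real.exp (l * (x * (1 - r))) ≤
      Real.exp (l ^ 2) := by
  have key : ∀ y : ℝ, |y| ≤ 1 → Real.exp y ≤ 1 + y + y ^ 2 := by
    intro y hy
    have := (abs_le.mp (Real.abs_exp_sub_one_sub_id_le hy)).2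
    linarith
  have hlx : |l * x| ≤ |l| := by
    rw [abs_mul]
    calc |l| * |x| ≤ |l| * 1 := by gcongr
      _ = |l| := mul_one _
  have h1 : |l * (x * (0 - r))| ≤ 1 := by
    rw [← mul_assoc, abs_mul]
    have : |0 - r| ≤ 1 := by rw [zero_sub, abs_neg, abs_of_nonneg hr0]; exact hr1
    calc |l * x| * |0 - r| ≤ 1 * 1 := by
          apply mul_le_mul (hlx.trans hl) this (abs_nonneg _) (by norm_num)
      _ = 1 := by norm_num
  have h2 : |l * (x * (1 - r))| ≤ 1 := by
    rw [← mul_assoc, abs_mul]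
    have : |1 - r| ≤ 1 := by rw [abs_le]; constructor <;> linarith
    calc |l * x| * |1 - r| ≤ 1 * 1 := by
          apply mul_le_mul (hlx.trans hl) this (abs_nonneg _) (by norm_num)
      _ = 1 := by norm_num
  have e1 := key _ h1
  have e2 := key _ h2
  have e3 : (1 - r) * Real.exp (l * (x * (0 - r))) ≤
      (1 - r) * (1 + l * (x * (0 - r)) + (l * (x * (0 - r))) ^ 2) :=
    mul_le_mul_of_nonneg_left e1 (by linarith)
  have e4 : r * Real.exp (l * (x * (1 - r))) ≤
      r * (1 + l * (x * (1 - r)) + (l * (x * (1 - r))) ^ 2) :=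
    mul_le_mul_of_nonneg_left e2 hr0
  have e5 : (1 - r) * (1 + l * (x * (0 - r)) + (l * (x * (0 - r))) ^ 2) +
      r * (1 + l * (x * (1 - r)) + (l * (x * (1 - r))) ^ 2) =
      1 + (l * x) ^ 2 * (r * (1 - r)) := by ring
  have e6 : (l * x) ^ 2 * (r * (1 - r)) ≤ l ^ 2 := by
    have hx2 : x ^ 2 ≤ 1 := by
      rw [← sq_abs]
      nlinarith [abs_nonneg x]
    have hr : r * (1 - r) ≤ 1 := by nlinarith
    have hr' : 0 ≤ r * (1 - r) := mul_nonneg hr0 (by linarith)
    calc (l * x) ^ 2 * (r * (1 - r)) = l ^ 2 * (x ^ 2 * (r * (1 - r))) := by ring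
      _ ≤ l ^ 2 * (1 * 1) := by
          apply mul_le_mul_of_nonneg_left _ (sq_nonneg l)
          exact mul_le_mul hx2 hr hr' (by norm_num)
      _ = l ^ 2 := by ring
  have e7 : 1 + l ^ 2 ≤ Real.exp (l ^ 2) := by
    have := Real.add_one_le_exp (l ^ 2)
    linarith
  linarith

lemma wt_nonneg {ρ : ℕ → ℝ} (h0 : ∀ s, 0 ≤ ρ s) (h1 : ∀ s, ρ s ≤ 1) (T : ℕ) (H : Finset ℕ) :
    0 ≤ wt ρ T H := by
  unfold wt
  refine prod_nonneg fun s _ => ?_
  split_ifs
  · exact h0 s
  · linarith [h1 s]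

lemma mgf_bound {ρ : ℕ → ℝ} (h0 : ∀ s, 0 ≤ ρ s) (h1 : ∀ s, ρ s ≤ 1)
    {h : ℕ → Finset ℕ → ℝ} (hh : ∀ s H, |h s H| ≤ 1) {l : ℝ} (hl : |l| ≤ 1) (T : ℕ) :
    ∑ H ∈ (range T).powerset, wt ρ T H * Real.exp (l * ptr ρ h T H) ≤
      Real.exp (l ^ 2 * T) := by
  induction T with
  | zero => simp [wt, ptr]
  | succ T ih =>
    rw [range_add_one, sum_powerset_insert notMem_range_self, ← sum_add_distrib]
    have step : ∀ H ∈ (range T).powerset,
        wt ρ (T + 1) H * Real.exp (l * ptr ρ h (T + 1) H) +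
          wt ρ (T + 1) (insert T H) * Real.exp (l * ptr ρ h (T + 1) (insert T H)) ≤
        (wt ρ T H * Real.exp (l * ptr ρ h T H)) * Real.exp (l ^ 2) := by
      intro H hH
      rw [mem_powerset] at hH
      rw [wt_succ_notMem ρ T hH, wt_succ_insert ρ T hH, ptr_succ_notMem ρ h T hH,
        ptr_succ_insert ρ h T hH, mul_add, mul_add, Real.exp_add, Real.exp_add]
      have := one_step (h0 T) (h1 T) (hh T H) hl
      have hw := wt_nonneg h0 h1 T H
      have he : 0 ≤ Real.exp (l * ptr ρ h T H) := (Real.exp_pos _).le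
      calc wt ρ T H * (1 - ρ T) *
            (Real.exp (l * ptr ρ h T H) * Real.exp (l * (h T H * (0 - ρ T)))) +
          wt ρ T H * ρ T *
            (Real.exp (l * ptr ρ h T H) * Real.exp (l * (h T H * (1 - ρ T))))
          = (wt ρ T H * Real.exp (l * ptr ρ h T H)) *
            ((1 - ρ T) * Real.exp (l * (h T H * (0 - ρ T))) +
              ρ T * Real.exp (l * (h T H * (1 - ρ T)))) := by ring
        _ ≤ _ := mul_le_mul_of_nonneg_left this (mul_nonneg hw he)
    calc _ ≤ ∑ H ∈ (range T).powerset,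
          (wt ρ T H * Real.exp (l * ptr ρ h T H)) * Real.exp (l ^ 2) := sum_le_sum step
      _ = (∑ H ∈ (range T).powerset, wt ρ T H * Real.exp (l * ptr ρ h T H)) *
          Real.exp (l ^ 2) := by rw [sum_mul]
      _ ≤ Real.exp (l ^ 2 * T) * Real.exp (l ^ 2) :=
          mul_le_mul_of_nonneg_right ih (Real.exp_pos _).le
      _ = Real.exp (l ^ 2 * (T + 1 : ℕ)) := by
          rw [← Real.exp_add]; congr 1; push_cast; ring


/-- the path version of the predictable transform -/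
noncomputable def pz (ρ : ℕ → ℝ) (h : ℕ → Finset ℕ → ℝ) (T : ℕ) (S : Set ℕ) : ℝ := by
  classical exact
  ∑ s ∈ range T, h s (hist S s) * ((if s ∈ S then (1 : ℝ) else 0) - ρ s)

lemma ptr_hist (ρ : ℕ → ℝ) (h : ℕ → Finset ℕ → ℝ) (T : ℕ) (S : Set ℕ) :
    ptr ρ h T (hist S T) = pz ρ h T S := by
  classical
  unfold ptr pz
  refine sum_congr rfl fun s hs => ?_
  rw [mem_range] at hs
  have h1 : (hist S T).filter (· < s) = hist S s := by
    ext x
    simp only [mem_filter, mem_hist]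
    constructor
    · rintro ⟨⟨_, h2⟩, h3⟩; exact ⟨h3, h2⟩
    · rintro ⟨h2, h3⟩; exact ⟨⟨h2.trans hs, h3⟩, h2⟩
  rw [h1]
  congr 2
  simp [mem_hist, hs]

lemma ptr_neg (ρ : ℕ → ℝ) (h : ℕ → Finset ℕ → ℝ) (T : ℕ) (H : Finset ℕ) :
    ptr ρ (fun s H => - h s H) T H = - ptr ρ h T H := by
  unfold ptr
  rw [← sum_neg_distrib]
  exact sum_congr rfl fun s _ => by ring

section prob

variable {Ω : Type*} [MeasurableSpace Ω] {μ : Measure Ω} [IsProbabilityMeasure μ]
  {P : Ω → Set ℕ}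

lemma hist_eq_iff {S : Set ℕ} {T : ℕ} {H : Finset ℕ} (hH : H ⊆ range T) :
    hist S T = H ↔ ∀ s ∈ range T, (s ∈ S ↔ s ∈ H) := by
  constructor
  · rintro rfl s hs
    rw [mem_range] at hs
    simp [mem_hist, hs]
  · intro h
    ext x
    rw [mem_hist]
    constructor
    · rintro ⟨h1, h2⟩
      exact (h x (mem_range.mpr h1)).mp h2
    · intro hx
      have := hH hx
      exact ⟨mem_range.mp this, (h x this).mpr hx⟩

lemma measurableSet_hist (hmeas : ∀ s, MeasurableSet {ω | s ∈ P ω}) {T : ℕ} {H : Finset ℕ}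
    (hH : H ⊆ range T) : MeasurableSet {ω | hist (P ω) T = H} := by
  have : {ω | hist (P ω) T = H} = ⋂ s ∈ range T, {ω | (s ∈ P ω ↔ s ∈ H)} := by
    ext ω
    simp only [Set.mem_ofPred_eq, Set.mem_iInter]
    exact hist_eq_iff hH
  rw [this]
  refine Finset.measurableSet_biInter _ fun s _ => ?_
  by_cases hs : s ∈ H
  · have e : {ω | (s ∈ P ω ↔ s ∈ H)} = {ω | s ∈ P ω} := by
      ext ω; simp [hs]
    rw [e]; exact hmeas s
  · have e : {ω | (s ∈ P ω ↔ s ∈ H)} = {ω | s ∈ P ω}ᶜ := by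
      ext ω; simp [hs]
    rw [e]; exact (hmeas s).compl

lemma prob_hist (hmeas : ∀ s, MeasurableSet {ω | s ∈ P ω})
    (hind : iIndepSet (fun s => {ω | s ∈ P ω}) μ) {T : ℕ} {H : Finset ℕ} (hH : H ⊆ range T) :
    μ.real {ω | hist (P ω) T = H} = wt (fun s => μ.real {ω | s ∈ P ω}) T H := by
  have hset : {ω | hist (P ω) T = H} =
      ⋂ s ∈ range T, (if s ∈ H then {ω | s ∈ P ω} else {ω | s ∈ P ω}ᶜ) := by
    ext ω
    simp only [Set.mem_ofPred_eq, Set.mem_iInter]
    rw [hist_eq_iff hH]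
    refine forall₂_congr fun s _ => ?_
    by_cases hs : s ∈ H <;> simp [hs]
  rw [hset, measureReal_def, iIndep.meas_biInter ((iIndepSet_iff_iIndep _ _).mp hind)]
  · rw [ENNReal.toReal_prod]
    unfold wt
    refine prod_congr rfl fun s _ => ?_
    split_ifs with hs
    · rfl
    · rw [← measureReal_def, probReal_compl_eq_one_sub (hmeas s)]
  · intro s _
    have : MeasurableSet[MeasurableSpace.generateFrom {{ω | s ∈ P ω}}] {ω | s ∈ P ω} :=
      MeasurableSpace.measurableSet_generateFrom rfl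
    split_ifs
    · exact this
    · exact this.compl

lemma prob_hist_mem (hmeas : ∀ s, MeasurableSet {ω | s ∈ P ω})
    (hind : iIndepSet (fun s => {ω | s ∈ P ω}) μ) (T : ℕ) (p : Finset ℕ → Prop)
    [DecidablePred p] :
    μ.real {ω | p (hist (P ω) T)} =
      ∑ H ∈ (range T).powerset.filter p, wt (fun s => μ.real {ω | s ∈ P ω}) T H := by
  have hset : {ω | p (hist (P ω) T)} =
      ⋃ H ∈ (range T).powerset.filter p, {ω | hist (P ω) T = H} := by
    ext ω
    simp only [Set.mem_ofPred_eq, Set.mem_iUnion, mem_filter, mem_powerset, exists_prop]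
    constructor
    · intro h
      refine ⟨hist (P ω) T, ⟨?_, h⟩, rfl⟩
      intro x hx
      rw [mem_hist] at hx
      exact mem_range.mpr hx.1
    · rintro ⟨H, ⟨_, h⟩, rfl⟩
      exact h
  rw [hset, measureReal_biUnion_finset]
  · refine sum_congr rfl fun H hH => prob_hist hmeas hind ?_
    exact mem_powerset.mp (mem_filter.mp hH).1
  · intro H _ H' _ hne
    rw [Function.onFun, Set.disjoint_left]
    rintro ω h1 h2
    exact hne (h1.symm.trans h2)
  · intro H hH
    exact measurableSet_hist hmeas (mem_powerset.mp (mem_filter.mp hH).1)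

lemma tail_one (hmeas : ∀ s, MeasurableSet {ω | s ∈ P ω})
    (hind : iIndepSet (fun s => {ω | s ∈ P ω}) μ) {h : ℕ → Finset ℕ → ℝ}
    (hh : ∀ s H, |h s H| ≤ 1) {T : ℕ} {a : ℝ} (ha0 : 0 ≤ a) (ha : a ≤ 2 * T) :
    μ.real {ω | a ≤ pz (fun s => μ.real {ω | s ∈ P ω}) h T (P ω)} ≤
      Real.exp (- (a ^ 2 / (4 * T))) := by
  classical
  set ρ : ℕ → ℝ := fun s => μ.real {ω | s ∈ P ω} with hρ
  rcases Nat.eq_zero_or_pos T with rfl | hT
  · simp only [Nat.cast_zero, mul_zero, div_zero, neg_zero, Real.exp_zero]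
    exact measureReal_le_one
  have hT' : (0 : ℝ) < T := by exact_mod_cast hT
  have h0 : ∀ s, 0 ≤ ρ s := fun s => measureReal_nonneg
  have h1 : ∀ s, ρ s ≤ 1 := fun s => measureReal_le_one
  have e1 : {ω | a ≤ pz ρ h T (P ω)} = {ω | (fun H => a ≤ ptr ρ h T H) (hist (P ω) T)} := by
    ext ω
    simp only [Set.mem_ofPred_eq, ptr_hist]
  rw [e1, prob_hist_mem hmeas hind T (fun H => a ≤ ptr ρ h T H)]
  set l : ℝ := a / (2 * T) with hl
  have hl0 : 0 ≤ l := by positivity
  have hl1 : |l| ≤ 1 := by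
    rw [abs_of_nonneg hl0, hl, div_le_one (by positivity)]
    exact ha
  calc ∑ H ∈ (range T).powerset.filter (fun H => a ≤ ptr ρ h T H), wt ρ T H
      ≤ ∑ H ∈ (range T).powerset.filter (fun H => a ≤ ptr ρ h T H),
          Real.exp (-(l * a)) * (wt ρ T H * Real.exp (l * ptr ρ h T H)) := by
        refine sum_le_sum fun H hH => ?_
        have hH' := (mem_filter.mp hH).2
        have hw := wt_nonneg h0 h1 T H
        have : 1 ≤ Real.exp (-(l * a)) * Real.exp (l * ptr ρ h T H) := by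
          rw [← Real.exp_add]
          apply Real.one_le_exp
          nlinarith
        calc wt ρ T H = wt ρ T H * 1 := (mul_one _).symm
          _ ≤ wt ρ T H * (Real.exp (-(l * a)) * Real.exp (l * ptr ρ h T H)) :=
              mul_le_mul_of_nonneg_left this hw
          _ = _ := by ring
    _ ≤ ∑ H ∈ (range T).powerset,
          Real.exp (-(l * a)) * (wt ρ T H * Real.exp (l * ptr ρ h T H)) := by
        refine sum_le_sum_of_subset_of_nonneg (filter_subset _ _) fun H _ _ => ?_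
        exact mul_nonneg (Real.exp_pos _).le
          (mul_nonneg (wt_nonneg h0 h1 T H) (Real.exp_pos _).le)
    _ = Real.exp (-(l * a)) *
          ∑ H ∈ (range T).powerset, wt ρ T H * Real.exp (l * ptr ρ h T H) := by
        rw [mul_sum]
    _ ≤ Real.exp (-(l * a)) * Real.exp (l ^ 2 * T) :=
        mul_le_mul_of_nonneg_left (mgf_bound h0 h1 hh hl1 T) (Real.exp_pos _).le
    _ = Real.exp (- (a ^ 2 / (4 * T))) := by
        rw [← Real.exp_add]
        congr 1
        rw [hl]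
        field_simp
        ring

lemma pz_neg (ρ : ℕ → ℝ) (h : ℕ → Finset ℕ → ℝ) (T : ℕ) (S : Set ℕ) :
    pz ρ (fun s H => - h s H) T S = - pz ρ h T S := by
  rw [← ptr_hist, ← ptr_hist, ptr_neg]

lemma tail_two (hmeas : ∀ s, MeasurableSet {ω | s ∈ P ω})
    (hind : iIndepSet (fun s => {ω | s ∈ P ω}) μ) {h : ℕ → Finset ℕ → ℝ}
    (hh : ∀ s H, |h s H| ≤ 1) {T : ℕ} {a : ℝ} (ha0 : 0 ≤ a) (ha : a ≤ 2 * T) :
    μ.real {ω | a ≤ |pz (fun s => μ.real {ω | s ∈ P ω}) h T (P ω)|} ≤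
      2 * Real.exp (- (a ^ 2 / (4 * T))) := by
  have h1 := tail_one hmeas hind hh ha0 ha
  have h2 := tail_one hmeas hind (h := fun s H => - h s H)
    (fun s H => by rw [abs_neg]; exact hh s H) ha0 ha
  have hsub : {ω | a ≤ |pz (fun s => μ.real {ω | s ∈ P ω}) h T (P ω)|} ⊆
      {ω | a ≤ pz (fun s => μ.real {ω | s ∈ P ω}) h T (P ω)} ∪
      {ω | a ≤ pz (fun s => μ.real {ω | s ∈ P ω}) (fun s H => - h s H) T (P ω)} := by
    intro ω hω
    simp only [Set.mem_ofPred_eq] at hω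
    rcases le_abs.mp hω with h | h
    · exact Or.inl h
    · right
      simp only [Set.mem_ofPred_eq, pz_neg]
      exact h
  calc _ ≤ μ.real ({ω | a ≤ pz (fun s => μ.real {ω | s ∈ P ω}) h T (P ω)} ∪
      {ω | a ≤ pz (fun s => μ.real {ω | s ∈ P ω}) (fun s H => - h s H) T (P ω)}) :=
        measureReal_mono hsub
    _ ≤ _ := measureReal_union_le _ _
    _ ≤ _ := by linarith

end prob

/-- time horizon -/
def hor (n : ℕ) : ℕ := n * Nat.sqrt n

/-- allowed deviation -/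
noncomputable def dev (n : ℕ) : ℝ := (n : ℝ) ^ (9 / 10 : ℝ)

lemma hor_le (n : ℕ) : (hor n : ℝ) ≤ (n : ℝ) ^ (3 / 2 : ℝ) := by
  unfold hor
  push_cast
  have h1 : ((Nat.sqrt n : ℕ) : ℝ) ≤ (n : ℝ) ^ (1 / 2 : ℝ) := by
    rw [← Real.sqrt_eq_rpow]
    exact Real.nat_sqrt_le_real_sqrt
  rcases Nat.eq_zero_or_pos n with rfl | hn
  · simp
  have hn' : (0 : ℝ) < n := by exact_mod_cast hn
  calc (n : ℝ) * (Nat.sqrt n : ℕ) ≤ n * (n : ℝ) ^ (1 / 2 : ℝ) := by gcongr
    _ = (n : ℝ) ^ (1 : ℝ) * (n : ℝ) ^ (1 / 2 : ℝ) := by rw [Real.rpow_one]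
    _ = (n : ℝ) ^ (3 / 2 : ℝ) := by
        rw [← Real.rpow_add hn']; norm_num

lemma le_hor {n : ℕ} (hn : 1 ≤ n) : n ≤ hor n := by
  unfold hor
  have : 1 ≤ Nat.sqrt n := Nat.sqrt_pos.mpr hn
  nlinarith

lemma summable_fail :
    Summable (fun n : ℕ => ((hor n : ℝ) + 1) * (2 * Real.exp (- (dev n ^ 2 / (4 * hor n))))) := by
  have hlo : (fun x : ℝ => Real.exp (-(1 / 4 : ℝ) * x)) =o[atTop] fun x => x ^ (-14 : ℝ) :=
    isLittleO_exp_neg_mul_rpow_atTop (by norm_num) (-14)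
  have htend : Tendsto (fun n : ℕ => (n : ℝ) ^ (3 / 10 : ℝ)) atTop atTop :=
    (tendsto_rpow_atTop (by norm_num)).comp tendsto_natCast_atTop_atTop
  have h1 := (hlo.comp_tendsto htend).bound (show (0 : ℝ) < 1 by norm_num)
  have hS : Summable (fun n : ℕ => 4 * (n : ℝ) ^ (-2 : ℝ)) := by
    apply Summable.mul_left
    exact Real.summable_nat_rpow.mpr (by norm_num)
  refine Summable.of_norm_bounded_eventually_nat hS ?_
  filter_upwards [h1, eventually_ge_atTop 1] with n hn hn1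
  have hn0 : (0 : ℝ) < n := by exact_mod_cast hn1
  have hn1' : (1 : ℝ) ≤ n := by exact_mod_cast hn1
  simp only [Function.comp, Real.norm_eq_abs, one_mul] at hn
  rw [abs_of_pos (Real.exp_pos _), abs_of_nonneg (by positivity), ← Real.rpow_mul hn0.le] at hn
  have hT0 : (0 : ℝ) < hor n := by
    have := le_hor hn1
    have : 0 < hor n := by omega
    exact_mod_cast this
  have e1 : (1 / 4 : ℝ) * (n : ℝ) ^ (3 / 10 : ℝ) ≤ dev n ^ 2 / (4 * hor n) := by
    rw [le_div_iff₀ (by positivity)]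
    calc (1 / 4 : ℝ) * (n : ℝ) ^ (3 / 10 : ℝ) * (4 * hor n)
        = (n : ℝ) ^ (3 / 10 : ℝ) * hor n := by ring
      _ ≤ (n : ℝ) ^ (3 / 10 : ℝ) * (n : ℝ) ^ (3 / 2 : ℝ) := by
          have := hor_le n
          gcongr
      _ = dev n ^ 2 := by
          unfold dev
          rw [← Real.rpow_add hn0, ← Real.rpow_natCast, ← Real.rpow_mul hn0.le]
          norm_num
  have e2 : Real.exp (- (dev n ^ 2 / (4 * hor n))) ≤ (n : ℝ) ^ ((3 / 10 : ℝ) * (-14)) := by
    refine le_trans (Real.exp_le_exp.mpr ?_) hn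
    linarith
  rw [Real.norm_eq_abs, abs_of_nonneg (by positivity)]
  have e3 : (hor n : ℝ) + 1 ≤ 2 * (n : ℝ) ^ (3 / 2 : ℝ) := by
    have := hor_le n
    have h2 : (1 : ℝ) ≤ (n : ℝ) ^ (3 / 2 : ℝ) := Real.one_le_rpow hn1' (by norm_num)
    linarith
  calc ((hor n : ℝ) + 1) * (2 * Real.exp (- (dev n ^ 2 / (4 * hor n))))
      ≤ (2 * (n : ℝ) ^ (3 / 2 : ℝ)) * (2 * (n : ℝ) ^ ((3 / 10 : ℝ) * (-14))) := by
        gcongr
    _ = 4 * (n : ℝ) ^ ((3 / 2 : ℝ) + (3 / 10 : ℝ) * (-14)) := by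
        rw [Real.rpow_add hn0]; ring
    _ ≤ 4 * (n : ℝ) ^ (-2 : ℝ) := by
        have : (n : ℝ) ^ ((3 / 2 : ℝ) + (3 / 10 : ℝ) * (-14)) ≤ (n : ℝ) ^ (-2 : ℝ) :=
          Real.rpow_le_rpow_of_exponent_le hn1' (by norm_num)
        linarith

/-- almost surely, all the transforms of a polynomial family are eventually small -/
lemma ae_eventually_pz {Ω : Type*} [MeasurableSpace Ω] {μ : Measure Ω} [IsProbabilityMeasure μ]
    {P : Ω → Set ℕ} (hmeas : ∀ s, MeasurableSet {ω | s ∈ P ω})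
    (hind : iIndepSet (fun s => {ω | s ∈ P ω}) μ) (h : ℕ → ℕ → ℕ → Finset ℕ → ℝ)
    (hh : ∀ n x s H, |h n x s H| ≤ 1) :
    ∀ᵐ ω ∂μ, ∀ᶠ n in atTop, ∀ x ≤ hor n,
      |pz (fun s => μ.real {ω | s ∈ P ω}) (h n x) (hor n) (P ω)| < dev n := by
  set ρ : ℕ → ℝ := fun s => μ.real {ω | s ∈ P ω} with hρ
  set B : ℕ → Set Ω := fun n => ⋃ x ∈ range (hor n + 1), {ω | dev n ≤ |pz ρ (h n x) (hor n) (P ω)|}
    with hB
  have hbound : ∀ n, 1 ≤ n → μ.real (B n) ≤
      ((hor n : ℝ) + 1) * (2 * Real.exp (- (dev n ^ 2 / (4 * hor n)))) := by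
    intro n hn
    have hn1 : (1 : ℝ) ≤ n := by exact_mod_cast hn
    have hd : dev n ≤ 2 * hor n := by
      have h1 : dev n ≤ n := by
        unfold dev
        calc (n : ℝ) ^ (9 / 10 : ℝ) ≤ (n : ℝ) ^ (1 : ℝ) :=
              Real.rpow_le_rpow_of_exponent_le hn1 (by norm_num)
          _ = n := Real.rpow_one _
      have h2 : (n : ℝ) ≤ hor n := by exact_mod_cast le_hor hn
      linarith
    have hd0 : 0 ≤ dev n := by unfold dev; positivity
    calc μ.real (B n) ≤ ∑ x ∈ range (hor n + 1),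
          μ.real {ω | dev n ≤ |pz ρ (h n x) (hor n) (P ω)|} :=
          measureReal_biUnion_finset_le _ _
      _ ≤ ∑ _x ∈ range (hor n + 1), 2 * Real.exp (- (dev n ^ 2 / (4 * hor n))) :=
          sum_le_sum fun x _ => tail_two hmeas hind (hh n x) hd0 hd
      _ = _ := by
          rw [sum_const, card_range, nsmul_eq_mul]; push_cast; ring
  have hsum : ∑' n, μ (B n) ≠ ⊤ := by
    have hs : Summable fun n => μ.real (B n) := by
      refine Summable.of_norm_bounded_eventually_nat summable_fail ?_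
      filter_upwards [eventually_ge_atTop 1] with n hn
      rw [Real.norm_eq_abs, abs_of_nonneg measureReal_nonneg]
      exact hbound n hn
    have : ∀ n, μ (B n) = ENNReal.ofReal (μ.real (B n)) := fun n => by
      rw [ofReal_measureReal (measure_ne_top μ _)]
    simp_rw [this]
    exact hs.tsum_ofReal_ne_top
  filter_upwards [ae_eventually_notMem hsum] with ω hω
  filter_upwards [hω] with n hn x hx
  simp only [hB, Set.mem_iUnion, exists_prop, not_exists, not_and, mem_range, Set.mem_ofPred_eq,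
    not_le] at hn
  exact hn x (by omega)

end Pool.Agent.Helper20
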