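import Mathlib
import Pool.Agent.Helper20.TwinIndex

set_option autoImplicit false

namespace Pool.Agent.Results.MP_04e9b2_nt.SmallSummand

open Pool.Agent.Helper20.TwinIndex

/-- Among the `n ≤ N` at most `C B(M) N / log N` have a decomposition `n = k + m` with `m ≤ M`,
where `B(M) ≤ M` is the number of `m ≤ M` with `p_{p_m} + 2` prime. -/
theorem result : ∃ C : ℝ, 0 < C ∧ ∀ N M : ℕ, 2 ≤ N →
    (repCount N M : ℝ) ≤ C * indexCount M * (N / Real.log N) ∧ indexCount M ≤ M := by
  obtain ⟨C, hC, hA⟩ := aCount_bound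
  refine ⟨C, hC, fun N M hN => ⟨?_, indexCount_le_self M⟩⟩
  have h1 : (repCount N M : ℝ) ≤ aCount N * indexCount M := by exact_mod_cast repCount_le N M
  have h2 := hA N hN
  calc (repCount N M : ℝ) ≤ aCount N * indexCount M := h1
    _ ≤ C * (N / Real.log N) * indexCount M := by gcongr
    _ = _ := by ring

end Pool.Agent.Results.MP_04e9b2_nt.SmallSummand
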