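import Mathlib
import Pool.Agent.Helper35.YG.Model
import Pool.Agent.Helper56.YGOdd

/-!
# Simple connectivity in the odd case when special triangles are not assumed to lift
-/

set_option autoImplicit false
set_option linter.unusedSectionVars false

namespace Pool.Agent.Helper20.YGspec

open Pool.Agent.Helper35.YG QuadraticMap Pool.Agent.Helper56.YGOdd

section tools

variable {K V : Type*} [Field K] [CharP K 2] [Finite K] [AddCommGroup V] [Module K V]
  {Q : QuadraticForm K V} (hnd : ∀ x, (∀ y, polar Q x y = 0) → x = 0)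
  (hdim : 6 ≤ Module.finrank K V)

include hnd hdim

/-- a vector of any prescribed value orthogonal to a hyperbolic pair -/
lemma exists_val {v₁ v₂ : V} (h12 : polar Q v₁ v₂ = 1) (r : K) :
    ∃ w, polar Q w v₁ = 0 ∧ polar Q w v₂ = 0 ∧ Q w = r := by
  obtain ⟨e, he0, he⟩ := exists_orth (Q := Q) ![v₁, v₂] (by omega)
  have he1 : polar Q e v₁ = 0 := he 0
  have he2 : polar Q e v₂ = 0 := he 1
  obtain ⟨g, hg⟩ := exists_one hnd he0
  obtain ⟨f, hf1, hf2, hf3⟩ := proj h12 g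
  have hef : polar Q e f = 1 := by rw [polar_comm, hf3 e he1 he2, hg]
  obtain ⟨α, β, h⟩ := solve2 hef 0 r
  refine ⟨0 + (α • e + β • f), ?_, ?_, h⟩
  · rw [zero_add, padd, psmul, psmul, he1, hf1]; ring
  · rw [zero_add, padd, psmul, psmul, he2, hf2]; ring

/-- a nonzero singular vector orthogonal to three vectors -/
lemma exists_sing (v₀ v₁ v₂ : V) : ∃ u : V, u ≠ 0 ∧ Q u = 0 ∧ polar Q u v₀ = 0 ∧
    polar Q u v₁ = 0 ∧ polar Q u v₂ = 0 := by
  obtain ⟨e, he0, he⟩ := exists_orth (Q := Q) ![v₀, v₁, v₂] (by omega)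
  have he1 : polar Q e v₀ = 0 := he 0
  have he2 : polar Q e v₁ = 0 := he 1
  have he3 : polar Q e v₂ = 0 := he 2
  by_cases hQe : Q e = 0
  · exact ⟨e, he0, hQe, he1, he2, he3⟩
  obtain ⟨g, hg⟩ := exists_one hnd he0
  obtain ⟨f, hf0, hf⟩ := exists_orth (Q := Q) ![v₀, v₁, v₂, e, g] (by omega)
  have hf1 : polar Q f v₀ = 0 := hf 0
  have hf2 : polar Q f v₁ = 0 := hf 1
  have hf3 : polar Q f v₂ = 0 := hf 2
  have hf4 : polar Q f e = 0 := hf 3
  have hf5 : polar Q f g = 0 := hf 4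
  obtain ⟨s, hs⟩ := exists_sqrt (Q f / Q e)
  have hs' : s * s * Q e = Q f := by rw [hs]; field_simp
  refine ⟨f + s • e, ?_, ?_, ?_, ?_, ?_⟩
  · intro h0
    have h1 : polar Q g (f + s • e) = 0 := by rw [h0, polar_zero_right]
    rw [padd', psmul', hg, polar_comm Q g f, hf5] at h1
    have hs0 : s = 0 := by linear_combination h1
    rw [hs0, zero_smul, add_zero] at h0
    exact hf0 h0
  · rw [qadd, qsmul, psmul', hf4, hs']
    grind
  · rw [padd, psmul, hf1, he1]; ring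
  · rw [padd, psmul, hf2, he2]; ring
  · rw [padd, psmul, hf3, he3]; ring

end tools

section conn

variable {K V : Type*} [Field K] [CharP K 2] [Finite K] [AddCommGroup V] [Module K V]
  {Q : QuadraticForm K V} (hnd : ∀ x, (∀ y, polar Q x y = 0) → x = 0)
  (hdim : 6 ≤ Module.finrank K V)
  {v₁ v₂ : V} (h12 : polar Q v₁ v₂ = 1)

include hnd hdim h12

/-- Propagation along the graph of vectors of value `h` orthogonal to a hyperbolic pair. -/
lemma propagate {h : K} (hh : h ≠ 0) (hK : ∃ δ : K, δ ≠ 0 ∧ δ ≠ 1) (P : V → Prop)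
    (hP : ∀ k k', polar Q k v₁ = 0 → polar Q k v₂ = 0 → Q k = h → polar Q k' v₁ = 0 →
      polar Q k' v₂ = 0 → Q k' = h → polar Q k k' = 1 → P k → P k')
    {k₁ k₂ : V} (a1 : polar Q k₁ v₁ = 0) (a2 : polar Q k₁ v₂ = 0) (a3 : Q k₁ = h)
    (b1 : polar Q k₂ v₁ = 0) (b2 : polar Q k₂ v₂ = 0) (b3 : Q k₂ = h) (hk : P k₁) : P k₂ := by
  have step : ∀ {k₁ k₂ : V}, polar Q k₁ v₁ = 0 → polar Q k₁ v₂ = 0 → Q k₁ = h →
      polar Q k₂ v₁ = 0 → polar Q k₂ v₂ = 0 → Q k₂ = h → polar Q k₁ k₂ ≠ 0 → P k₁ → P k₂ := by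
    intro k₁ k₂ a1 a2 a3 b1 b2 b3 hne hk
    obtain ⟨w, w1, w2, w3, w4, w5⟩ := solve_plane hnd h12 hdim a1 a2 b1 b2 hne 1 1 h
    have hw : P w := hP k₁ w a1 a2 a3 w1 w2 w5 (by rw [polar_comm]; exact w3) hk
    exact hP w k₂ w1 w2 w5 b1 b2 b3 w4 hw
  by_cases hne : polar Q k₁ k₂ = 0
  swap
  · exact step a1 a2 a3 b1 b2 b3 hne hk
  by_cases heq : k₁ = k₂
  · rw [← heq]; exact hk
  obtain ⟨δ, hδ0, hδ1⟩ := hK
  have hself : ∀ v : V, v + v = 0 := fun v => by
    rw [← two_smul K v, CharTwo.two_eq_zero, zero_smul]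
  have hind : ∀ c d : K, c • (k₁ + k₂) + d • k₁ = 0 → c = 0 ∧ d = 0 := by
    intro c d hcd
    by_cases hc : c = 0
    · refine ⟨hc, ?_⟩
      rw [hc, zero_smul, zero_add] at hcd
      rcases smul_eq_zero.1 hcd with h0 | h0
      · exact h0
      · exfalso
        rw [h0, QuadraticMap.map_zero] at a3
        exact hh a3.symm
    · exfalso
      have h1 : c • k₂ = (c + d) • k₁ := by
        have h2 : c • k₂ + (c + d) • k₁ = 0 := by
          rw [← hcd]; module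
        have h3 := hself ((c + d) • k₁)
        exact add_right_cancel (h2.trans h3.symm)
      have h2 : Q (c • k₂) = Q ((c + d) • k₁) := by rw [h1]
      rw [qsmul, qsmul, a3, b3] at h2
      have h3 : d * d * h = 0 := by
        have : c * c * h + (c + d) * (c + d) * h = 0 := by
          rw [h2]; exact CharTwo.add_self_eq_zero _
        grind
      have h4 : d = 0 := by
        rcases mul_eq_zero.1 h3 with h5 | h5
        · exact mul_self_eq_zero.1 h5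
        · exact absurd h5 hh
      rw [h4, add_zero] at h1
      exact heq ((smul_right_injective V hc h1).symm)
  obtain ⟨w, w1, w2, w3, w4, w5⟩ := solve_deg hnd h12 (x := k₁ + k₂) (y := k₁)
    (by rw [padd, a1, b1, add_zero]) (by rw [padd, a2, b2, add_zero]) a1 a2
    (by rw [padd, pself, polar_comm Q k₂ k₁, hne, add_zero]) hind δ 1 h
    (Or.inr ⟨hδ0, by rw [qadd, a3, b3, hne, add_zero]; exact CharTwo.add_self_eq_zero _⟩)
  have hw2 : polar Q w k₂ ≠ 0 := by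
    rw [padd', w4] at w3
    intro h0
    rw [h0, add_zero] at w3
    exact hδ1 w3.symm
  have hw1 : polar Q k₁ w ≠ 0 := by
    rw [polar_comm, w4]; exact one_ne_zero
  exact step w1 w2 w5 b1 b2 b3 hw2 (step a1 a2 a3 w1 w2 w5 hw1 hk)

end conn

section main

variable {K V : Type*} [Field K] [CharP K 2] [Finite K] [AddCommGroup V] [Module K V]
  {Q : QuadraticForm K V} (hnd : ∀ x, (∀ y, polar Q x y = 0) → x = 0)
  (hdim : 6 ≤ Module.finrank K V) {κ : K} {Ω : Type*} {E : Ω → Ω → Prop} {π : Ω → V}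
  (hc : Cover' {v : V | Q v = κ ∧ v ≠ 0} (fun v w => polar Q v w = 1)
    (fun x y z => x + y + z = 0) E π)

include hnd hdim hc

/-- Two-walk independence. -/
lemma two_walk (hK : ∃ δ : K, δ ≠ 0 ∧ δ ≠ 1) (hκ : κ = 1) {ω₀ ω₁ ωz : Ω} (h01 : E ω₀ ω₁)
    (h1z : E ω₁ ωz) (hc0 : polar Q (π ω₀) (π ωz) ≠ 0) (hc1 : polar Q (π ω₀) (π ωz) ≠ 1)
    {x : V} (hx : Q x = κ) (hx0 : polar Q x (π ω₀) = 1) (hxz : polar Q x (π ωz) = 1) :
    ∃ ωx, π ωx = x ∧ E ω₀ ωx ∧ E ωx ωz := by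
  subst hκ
  set v₀ := π ω₀ with hv₀
  set z := π ωz with hz
  set c := polar Q v₀ z with hcdef
  have Qv₀ : Q v₀ = 1 := (hc.mem ω₀).1
  have Qz : Q z = 1 := (hc.mem ωz).1
  have hself : ∀ v : V, v + v = 0 := fun v => by
    rw [← two_smul K v, CharTwo.two_eq_zero, zero_smul]
  -- the base point
  set x₀ : V := c⁻¹ • (v₀ + z) with hx₀
  have x0v : polar Q x₀ v₀ = 1 := by
    rw [hx₀, psmul, padd, pself, polar_comm Q z v₀, ← hcdef, zero_add, inv_mul_cancel₀ hc0]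
  have x0z : polar Q x₀ z = 1 := by
    rw [hx₀, psmul, padd, pself, ← hcdef, add_zero, inv_mul_cancel₀ hc0]
  have Qx0 : Q x₀ = c⁻¹ := by
    rw [hx₀, qsmul, qadd, Qv₀, Qz, ← hcdef, CharTwo.add_self_eq_zero, zero_add]
    field_simp
  have hperp : ∀ k, polar Q k v₀ = 0 → polar Q k z = 0 → polar Q x₀ k = 0 := by
    intro k h1 h2
    rw [hx₀, psmul, padd, polar_comm Q v₀ k, polar_comm Q z k, h1, h2, add_zero, mul_zero]
  have h12 : polar Q (c⁻¹ • v₀) z = 1 := by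
    rw [psmul, ← hcdef, inv_mul_cancel₀ hc0]
  have hconv : ∀ k, polar Q k (c⁻¹ • v₀) = 0 ↔ polar Q k v₀ = 0 := by
    intro k
    rw [psmul']
    constructor
    · intro h
      rcases mul_eq_zero.1 h with h | h
      · exact absurd h (inv_ne_zero hc0)
      · exact h
    · intro h
      rw [h, mul_zero]
  -- the property
  have key : ∀ x x', Q x = 1 → polar Q x v₀ = 1 → polar Q x z = 1 → Q x' = 1 →
      polar Q x' v₀ = 1 → polar Q x' z = 1 → polar Q x x' = 1 →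
      (∃ ωx, π ωx = x ∧ E ω₀ ωx ∧ E ωx ωz) → ∃ ωx, π ωx = x' ∧ E ω₀ ωx ∧ E ωx ωz := by
    rintro x x' hx hx0 hxz hx' hx0' hxz' hadj ⟨ωx, rfl, e1, e2⟩
    have hx'X : x' ∈ {v : V | Q v = 1 ∧ v ≠ 0} := by
      refine ⟨hx', ?_⟩
      intro h0
      rw [h0, QuadraticMap.map_zero] at hx'
      exact zero_ne_one hx'
    obtain ⟨ω', e3, e4⟩ := hc.lift ωx x' hx'X hadj
    refine ⟨ω', e4, ?_, ?_⟩
    · refine hc.tri _ _ _ e1 e3 ?_ ?_
      · change polar Q (π ω₀) (π ω') = 1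
        rw [e4, polar_comm]; exact hx0'
      · intro hs
        change π ω₀ + π ωx + π ω' = 0 at hs
        have h5 : polar Q (π ω₀ + π ωx + π ω') z = 0 := by rw [hs, polar_zero_left]
        rw [padd, padd, hxz, e4, hxz', add_assoc, CharTwo.add_self_eq_zero, add_zero] at h5
        exact hc0 h5
    · refine hc.tri _ _ _ (hc.symm _ _ e3) e2 ?_ ?_
      · change polar Q (π ω') (π ωz) = 1
        rw [e4]; exact hxz'
      · intro hs
        change π ω' + π ωx + π ωz = 0 at hs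
        have h5 : polar Q (π ω' + π ωx + π ωz) v₀ = 0 := by rw [hs, polar_zero_left]
        rw [padd, padd, hx0, e4, hx0', CharTwo.add_self_eq_zero, zero_add, polar_comm] at h5
        exact hc0 h5
  have hval : ∀ k, polar Q k v₀ = 0 → polar Q k z = 0 → Q k = 1 + c⁻¹ →
      Q (x₀ + k) = 1 ∧ polar Q (x₀ + k) v₀ = 1 ∧ polar Q (x₀ + k) z = 1 := by
    intro k h1 h2 h3
    refine ⟨?_, ?_, ?_⟩
    · rw [qadd, Qx0, h3, hperp k h1 h2]
      grind
    · rw [padd, x0v, h1, add_zero]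
    · rw [padd, x0z, h2, add_zero]
  have hback : ∀ x, Q x = 1 → polar Q x v₀ = 1 → polar Q x z = 1 →
      polar Q (x₀ + x) v₀ = 0 ∧ polar Q (x₀ + x) z = 0 ∧ Q (x₀ + x) = 1 + c⁻¹ := by
    intro x h1 h2 h3
    refine ⟨?_, ?_, ?_⟩
    · rw [padd, x0v, h2]; exact CharTwo.add_self_eq_zero _
    · rw [padd, x0z, h3]; exact CharTwo.add_self_eq_zero _
    · rw [qadd, Qx0, h1]
      have : polar Q x₀ x = 0 := by
        rw [hx₀, psmul, padd, polar_comm Q v₀ x, polar_comm Q z x, h2, h3,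
          CharTwo.add_self_eq_zero, mul_zero]
      rw [this]; ring
  have hx₀x : ∀ x : V, x₀ + (x₀ + x) = x := fun x => by
    rw [← add_assoc, hself, zero_add]
  have hadd : ∀ k k', polar Q k v₀ = 0 → polar Q k z = 0 → polar Q k' v₀ = 0 →
      polar Q k' z = 0 → polar Q (x₀ + k) (x₀ + k') = polar Q k k' := by
    intro k k' h1 h2 h3 h4
    rw [padd, padd', padd', pself, hperp k' h3 h4, polar_comm Q k x₀, hperp k h1 h2]
    ring
  have hh : (1 + c⁻¹ : K) ≠ 0 := by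
    intro h0
    apply hc1
    have : c * (1 + c⁻¹) = c + 1 := by field_simp
    rw [h0, mul_zero] at this
    grind
  have h1X := hc.mem ω₁
  have hA01 : polar Q (π ω₁) v₀ = 1 := by
    rw [polar_comm]; exact hc.adj _ _ h01
  have hA1z : polar Q (π ω₁) z = 1 := hc.adj _ _ h1z
  obtain ⟨a1, a2, a3⟩ := hback (π ω₁) h1X.1 hA01 hA1z
  obtain ⟨b1, b2, b3⟩ := hback x hx hx0 hxz
  have := propagate hnd hdim h12 hh hK
    (P := fun k => ∃ ωx, π ωx = x₀ + k ∧ E ω₀ ωx ∧ E ωx ωz)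
    (by
      intro k k' c1 c2 c3 d1 d2 d3 hkk' hex
      rw [hconv] at c1 d1
      obtain ⟨p1, p2, p3⟩ := hval k c1 c2 c3
      obtain ⟨q1, q2, q3⟩ := hval k' d1 d2 d3
      exact key (x₀ + k) (x₀ + k') p1 p2 p3 q1 q2 q3 (by rw [hadd k k' c1 c2 d1 d2, hkk']) hex)
    (k₁ := x₀ + π ω₁) (k₂ := x₀ + x) ((hconv _).2 a1) a2 a3 ((hconv _).2 b1) b2 b3
    ⟨ω₁, (hx₀x _).symm, h01, h1z⟩
  obtain ⟨ωx, e1, e2, e3⟩ := this
  exact ⟨ωx, by rw [e1, hx₀x], e2, e3⟩

/-- Special triangles lift as well. -/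
lemma special (hK : ∃ δ : K, δ ≠ 0 ∧ δ ≠ 1) (ω₀ ω₁ ω₂ : Ω) (h01 : E ω₀ ω₁)
    (h12 : E ω₁ ω₂) (h02 : polar Q (π ω₀) (π ω₂) = 1) : E ω₀ ω₂ := by
  have hself : ∀ v : V, v + v = 0 := fun v => by
    rw [← two_smul K v, CharTwo.two_eq_zero, zero_smul]
  by_cases hs : π ω₀ + π ω₁ + π ω₂ = 0
  swap
  · exact hc.tri _ _ _ h01 h12 h02 hs
  have hv₂ : π ω₂ = π ω₀ + π ω₁ := by
    have h3 := hself (π ω₂)
    exact (add_right_cancel (hs.trans h3.symm)).symm
  have A01 : polar Q (π ω₀) (π ω₁) = 1 := hc.adj _ _ h01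
  have A12 : polar Q (π ω₁) (π ω₂) = 1 := hc.adj _ _ h12
  have Q0 : Q (π ω₀) = κ := (hc.mem ω₀).1
  have Q1 : Q (π ω₁) = κ := (hc.mem ω₁).1
  have Q2 : Q (π ω₂) = κ := (hc.mem ω₂).1
  have hκ : κ = 1 := by
    rw [← Q2, hv₂, qadd, Q0, Q1, A01, CharTwo.add_self_eq_zero, zero_add]
  obtain ⟨c, hc0, hc1⟩ := hK
  obtain ⟨w', w1, w2, w3⟩ := exists_val hnd hdim A01 (c * c + c)
  obtain ⟨x', x1, x2, x3, x4, x5⟩ := exists_sing hnd hdim (π ω₀) (π ω₁) w'
  set z : V := π ω₀ + c • π ω₁ + w' with hz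
  have z1 : polar Q (π ω₁) z = 1 := by
    rw [hz, padd', padd', psmul', pself, polar_comm Q (π ω₁) (π ω₀), A01,
      polar_comm Q (π ω₁) w', w2]
    ring
  have z0 : polar Q (π ω₀) z = c := by
    rw [hz, padd', padd', psmul', pself, A01, polar_comm Q (π ω₀) w', w1]
    ring
  have Qz : Q z = κ := by
    rw [hz, qadd, qadd, qsmul, padd, psmul, psmul', Q0, Q1, A01, w3, polar_comm Q (π ω₀) w', w1,
      polar_comm Q (π ω₁) w', w2, hκ]
    grind
  have z2 : polar Q (π ω₂) z = 1 + c := by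
    rw [hv₂, padd, z0, z1, add_comm]
  have hzX : z ∈ {v : V | Q v = κ ∧ v ≠ 0} := by
    refine ⟨Qz, ?_⟩
    intro h0
    rw [h0, polar_zero_right] at z1
    exact zero_ne_one z1
  obtain ⟨ωz, e1, e2⟩ := hc.lift ω₁ z hzX z1
  set x : V := π ω₁ + x' with hx
  have Qx : Q x = κ := by
    rw [hx, qadd, Q1, x2, polar_comm, x4]; ring
  have xv0 : polar Q x (π ω₀) = 1 := by
    rw [hx, padd, polar_comm Q (π ω₁), A01, x3, add_zero]
  have xv1 : polar Q x (π ω₁) = 0 := by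
    rw [hx, padd, pself, x4, add_zero]
  have xv2 : polar Q x (π ω₂) = 1 := by
    rw [hv₂, padd', xv0, xv1, add_zero]
  have xz : polar Q x z = 1 := by
    rw [hz, padd', padd', psmul', xv0, xv1, hx, padd, polar_comm Q (π ω₁) w', w2, x5]
    ring
  have hc1' : (1 + c : K) ≠ 0 := by
    intro h0
    apply hc1
    grind
  have hc1'' : (1 + c : K) ≠ 1 := by
    intro h0
    apply hc0
    grind
  obtain ⟨ωx, f1, f2, f3⟩ := two_walk hnd hdim hc ⟨c, hc0, hc1⟩ hκ h01 e1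
    (by rw [e2, z0]; exact hc0) (by rw [e2, z0]; exact hc1) Qx xv0 (by rw [e2]; exact xz)
  obtain ⟨ωx', g1, g2, g3⟩ := two_walk hnd hdim hc ⟨c, hc0, hc1⟩ hκ (hc.symm _ _ h12) e1
    (by rw [e2, z2]; exact hc1') (by rw [e2, z2]; exact hc1'') Qx xv2 (by rw [e2]; exact xz)
  have hxx : ωx = ωx' := hc.uniq ωz _ _ (hc.symm _ _ f3) (hc.symm _ _ g3) (by rw [f1, g1])
  rw [← hxx] at g2
  refine hc.tri _ _ _ f2 (hc.symm _ _ g2) h02 ?_
  intro h0
  change π ω₀ + π ωx + π ω₂ = 0 at h0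
  apply x1
  rw [f1, hx, hv₂] at h0
  calc x' = (π ω₀ + π ω₀) + (π ω₁ + π ω₁) + x' := by rw [hself, hself]; simp
    _ = π ω₀ + (π ω₁ + x') + (π ω₀ + π ω₁) := by abel
    _ = 0 := h0

end main

/-- **Simple connectivity, odd case, with special triangles.** -/
theorem SC_odd' {K V : Type*} [Field K] [Fintype K] [CharP K 2] (hq : 4 ≤ Fintype.card K)
    [AddCommGroup V] [Module K V] [FiniteDimensional K V] (Q : QuadraticForm K V)
    (hnd : ∀ x, (∀ y, QuadraticMap.polar Q x y = 0) → x = 0) (hdim : 6 ≤ Module.finrank K V)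
    (κ : K) (hκ : κ = 0 ∨ κ = 1) {Ω : Type*} {E : Ω → Ω → Prop} {π : Ω → V}
    (hc : Cover' {v : V | Q v = κ ∧ v ≠ 0} (fun v w => QuadraticMap.polar Q v w = 1)
      (fun x y z => x + y + z = 0) E π) : Function.Injective π := by
  have hK : ∃ δ : K, δ ≠ 0 ∧ δ ≠ 1 := by
    by_contra hcon
    push Not at hcon
    classical
    have h1 : (Finset.univ : Finset K) ⊆ {0, 1} := by
      intro x _
      by_cases hx : x = 0
      · simp [hx]
      · simp [hcon x hx]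
    have h2 := Finset.card_le_card h1
    have h3 : ({0, 1} : Finset K).card ≤ 2 := Finset.card_le_two
    rw [Finset.card_univ] at h2
    omega
  exact SC_odd hq Q hnd hdim κ hκ ⟨hc.mem, hc.symm, hc.adj, hc.lift, hc.uniq,
    fun ω₀ ω₁ ω₂ h01 h12 h02 => special hnd hdim hc hK ω₀ ω₁ ω₂ h01 h12 h02, hc.conn⟩

end Pool.Agent.Helper20.YGspec
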